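import Pool.Agent.MP_5d9b3c_ag.H48R.Spec
import Pool.Agent.MP_5d9b3c_ag.H48N.Null

/-!
The monomials are algebraic over the base coordinates and the logarithmic derivatives.
-/

namespace Pool.Agent.MP_5d9b3c_ag.H48R

open Finset Pool.Agent.MP_5d9b3c_ag.H22 Pool.Agent.MP_5d9b3c_ag.H48N

namespace AlgAux

open MvPolynomial

section Field

variable {L : Type} [Field L] [Algebra ℂ L]

/-- The constants of a derivation. -/
def cst (δ : Derivation ℂ L L) : Subfield L where
  carrier := {a | δ a = 0}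
  mul_mem' := fun {a b} (ha : δ a = 0) (hb : δ b = 0) => show δ (a * b) = 0 by
    rw [δ.leibniz, ha, hb, smul_zero, smul_zero, add_zero]
  one_mem' := δ.map_one_eq_zero
  add_mem' := fun {a b} (ha : δ a = 0) (hb : δ b = 0) => show δ (a + b) = 0 by
    rw [map_add, ha, hb, add_zero]
  zero_mem' := map_zero δ
  neg_mem' := fun {a} (ha : δ a = 0) => show δ (-a) = 0 by rw [map_neg, ha, neg_zero]
  inv_mem' := fun a (ha : δ a = 0) => show δ a⁻¹ = 0 by rw [δ.leibniz_inv, ha, smul_zero]

/-- The derivation, over its constants. -/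
def der (δ : Derivation ℂ L L) : Derivation (cst δ) L L :=
  Derivation.mk'
    { toFun := δ
      map_add' := map_add δ
      map_smul' := fun r a => by
        have h : δ (r : L) = 0 := r.2
        change δ ((r : L) * a) = (r : L) * δ a
        rw [δ.leibniz, h, smul_zero, add_zero, smul_eq_mul] } δ.leibniz

/-- The constants are algebraically closed in the field. -/
lemma of_integral (δ : Derivation ℂ L L) {z : L} (h : IsIntegral (cst δ) z) : δ z = 0 := by
  have : CharZero L := charZero_of_injective_algebraMap (algebraMap ℂ L).injective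
  have h1 := (der δ).map_aeval (minpoly (cst δ) z) z
  rw [minpoly.aeval, map_zero, smul_eq_mul] at h1
  exact (mul_eq_zero.1 h1.symm).resolve_left
    ((minpoly.irreducible h).separable.aeval_derivative_ne_zero (minpoly.aeval _ _))

/-- A non constant element has a pole at a place that is trivial on the constants. -/
lemma exists_val (δ : Derivation ℂ L L) {z : L} (h : δ z ≠ 0) :
    ∃ V : ValuationSubring L, (∀ a, δ a = 0 → a ∈ V) ∧ z ∉ V := by
  have : IsIntegrallyClosedIn (cst δ).toSubring L :=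
    Subring.isIntegrallyClosedIn_iff.2 (fun x hx => of_integral δ hx)
  obtain ⟨V, h1, h2⟩ := Subring.exists_le_valuationSubring_of_isIntegrallyClosedIn
    (R := (cst δ).toSubring) (x := z) h
  exact ⟨V, fun a ha => h1 ha, h2⟩

/-- A place gives a complex point. -/
lemma point {σ : Type} [Finite σ] (V : ValuationSubring L) (hC : ∀ r, algebraMap ℂ L r ∈ V)
    (w : σ → L) (hw : ∀ j, w j ∈ V) (g : MvPolynomial σ ℂ) (hg : V.valuation (aeval w g) = 1) :
    ∃ y : σ → ℂ, aeval y g ≠ 0 ∧
      ∀ p : MvPolynomial σ ℂ, V.valuation (aeval w p) < 1 → aeval y p = 0 := by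
  have h1 : ∀ p : MvPolynomial σ ℂ, aeval w p ∈ V := by
    intro p
    induction p using MvPolynomial.induction_on with
    | C r => simpa using hC r
    | add p q hp hq =>
      rw [map_add]
      exact add_mem hp hq
    | mul_X p j hp =>
      rw [map_mul, aeval_X]
      exact mul_mem hp (hw j)
  let P : Ideal (MvPolynomial σ ℂ) :=
    { carrier := {p | V.valuation (aeval w p) < 1}
      add_mem' := fun {p q} hp hq => show V.valuation (aeval w (p + q)) < 1 by
        rw [map_add]
        exact V.valuation.map_add_lt hp hq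
      zero_mem' := show V.valuation (aeval w (0 : MvPolynomial σ ℂ)) < 1 by simp
      smul_mem' := fun p q hq => show V.valuation (aeval w (p * q)) < 1 by
        rw [map_mul, map_mul]
        exact (mul_le_of_le_one_left' ((V.valuation_le_one_iff _).2 (h1 p))).trans_lt hq }
  have h2 : g ∉ P.radical := by
    rintro ⟨n, hn⟩
    change V.valuation (aeval w (g ^ n)) < 1 at hn
    rw [map_pow, map_pow, hg, one_pow] at hn
    exact lt_irrefl _ hn
  rw [← vanishingIdeal_zeroLocus_eq_radical (K := ℂ), mem_vanishingIdeal_iff] at h2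
  push Not at h2
  obtain ⟨y, h3, h4⟩ := h2
  exact ⟨y, h4, fun p hp => mem_zeroLocus_iff.1 h3 p hp⟩

omit [Algebra ℂ L] in
lemma mon_sum {O α : Type} [Fintype O] [DecidableEq α] {x : O → L} (hx : ∀ o, x o ≠ 0)
    (S : Finset α) (A : α → O → ℤ) (k : α → ℕ) :
    ∏ o, x o ^ (∑ j ∈ S, k j • A j) o = ∏ j ∈ S, (∏ o, x o ^ A j o) ^ k j := by
  induction S using Finset.induction_on with
  | empty => simp
  | insert j S hj ih =>
    rw [sum_insert hj, prod_insert hj, ← ih, ← prod_pow, ← prod_mul_distrib]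
    refine prod_congr rfl (fun o _ => ?_)
    rw [Pi.add_apply, zpow_add₀ (hx o), Pi.smul_apply, nsmul_eq_mul, mul_comm (k j : ℤ), zpow_mul,
      zpow_natCast]

end Field

variable {ι ν κ : Type} [Fintype ι] [LinearOrder ι] [Fintype ν] [LinearOrder ν] [Fintype κ]
  [DecidableEq κ] (B : κ → Pt ν) (em : ι ↪ ν) (T : Finset κ)

/-- The base directions. -/
def Om : Finset (Option ν) := univ.filter (fun o => ∀ i, o ≠ some (em i))

/-- The vectors together with the base directions. -/
def B1 : κ ⊕ Option ν → Pt ν := Sum.elim B (fun o => Pi.single o 1)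

variable {B em T}

omit [LinearOrder ι] in
/-- There is no complex point on the toric variety. -/
lemma core {c : κ → ℂ} (hT : FaceO B c em T) (y : κ ⊕ Option ν → ℂ)
    (hb : ∀ k k' : κ ⊕ Option ν → ℕ,
      ∑ j ∈ T.disjSum (Om em), k j • B1 B j = ∑ j ∈ T.disjSum (Om em), k' j • B1 B j →
      ∏ j ∈ T.disjSum (Om em), y j ^ k j = ∏ j ∈ T.disjSum (Om em), y j ^ k' j)
    (hF : ∀ o, ∑ b ∈ T, c b * (B b o : ℂ) * y (Sum.inl b) = 0) {v : κ} (hv : v ∈ T)
    (h0 : y (Sum.inl v) ≠ 0) (h1 : ∀ o ∈ Om em, y (Sum.inr o) ≠ 0) : False := by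
  classical
  obtain ⟨n, h2, h3⟩ := NullAux.face (B1 B) (T.disjSum (Om em)) y hb
  have h4 : ∀ j ∈ T.disjSum (Om em), n ⬝ᵥ Bq (B1 B) j = 0 ↔ y j ≠ 0 := fun j hj => by
    simpa [hj] using Finset.ext_iff.1 h3 j
  have h5 : ∀ o ∈ Om em, n o = 0 := fun o ho => by
    have := (h4 (Sum.inr o) (inr_mem_disjSum.2 ho)).2 (h1 o ho)
    simpa [dotProduct, Bq, B1, Pi.single_apply] using this
  have h6 : ∀ b, (fun i => n (some (em i))) ⬝ᵥ bz B em b = n ⬝ᵥ Bq (B1 B) (Sum.inl b) := fun b =>
    Fintype.sum_of_injective (fun i => some (em i))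
      (fun i j h => em.injective (Option.some.inj h)) _ _ (fun o ho => by
        rw [h5 o (mem_filter.2 ⟨mem_univ _, fun i h => ho ⟨i, h.symm⟩⟩), zero_mul]) (fun i => rfl)
  have h7 : T.filter (fun b => (fun i => n (some (em i))) ⬝ᵥ bz B em b = 0) =
      T.filter (fun b => y (Sum.inl b) ≠ 0) :=
    filter_congr (fun b hb => by rw [h6, h4 _ (inl_mem_disjSum.2 hb)])
  obtain ⟨x, x0, hx⟩ := NullAux.extend (T.filter (fun b => y (Sum.inl b) ≠ 0)) B
    (fun b => y (Sum.inl b)) (fun j hj => (mem_filter.1 hj).2) (fun k k' e => by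
      have := hb (Sum.elim (fun j => if y (Sum.inl j) ≠ 0 then k j else 0) 0)
        (Sum.elim (fun j => if y (Sum.inl j) ≠ 0 then k' j else 0) 0) (by
          simp only [sum_disjSum, Sum.elim_inl, Sum.elim_inr, ite_smul, zero_smul, B1,
            Pi.zero_apply]
          rw [← sum_filter, ← sum_filter, e])
      simp only [prod_disjSum, Sum.elim_inl, Sum.elim_inr, pow_ite, pow_zero, Pi.zero_apply,
        prod_const_one, mul_one] at this
      rwa [← prod_filter, ← prod_filter] at this)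
  obtain ⟨o, ho⟩ := hT (fun i => n (some (em i)))
    (fun b hb => by rw [h6]; exact h2 _ (inl_mem_disjSum.2 hb))
    (h7 ▸ ⟨v, mem_filter.2 ⟨hv, h0⟩⟩) x x0
  refine ho ?_
  rw [h7, sum_congr rfl (fun j hj => by rw [hx j hj]), sum_filter_of_ne
    (fun j _ hj => right_ne_zero_of_mul hj)]
  exact hF o

omit [LinearOrder ι] [Fintype κ] [DecidableEq κ] in
lemma deg_eq {d : ι → ℚ} (hd : ∀ b ∈ T, d ⬝ᵥ bz B em b = 1) (k : κ ⊕ Option ν → ℕ) :
    d ⬝ᵥ (fun i => (((∑ j ∈ T.disjSum (Om em), k j • B1 B j) (some (em i)) : ℤ) : ℚ)) =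
      ((∑ b ∈ T, k (Sum.inl b) : ℕ) : ℚ) := by
  have h1 : (fun i => (((∑ j ∈ T.disjSum (Om em), k j • B1 B j) (some (em i)) : ℤ) : ℚ)) =
      ∑ b ∈ T, (k (Sum.inl b) : ℚ) • bz B em b := by
    ext i
    rw [sum_disjSum, Pi.add_apply, Finset.sum_apply, Finset.sum_apply, Finset.sum_apply,
      sum_eq_zero (s := Om em) (fun o ho => by
        simp [B1, Pi.single_eq_of_ne' ((mem_filter.1 ho).2 i)]), add_zero]
    simp [B1, bz, bx]
  rw [h1, dotProduct_sum, Nat.cast_sum]
  exact sum_congr rfl (fun b hb => by rw [dotProduct_smul, hd b hb, smul_eq_mul, mul_one])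

end AlgAux

open AlgAux MvPolynomial in
theorem alg : AlgStmt := by
  intro ι ν κ _ _ _ _ _ _ B c em T hT ⟨d, hd⟩ L _ _ x δ hx h1 h2 b hb
  classical
  by_contra h0
  obtain ⟨V, hV, hz⟩ := exists_val δ h0
  obtain ⟨z, hz'⟩ : ∃ z : κ → L, ∀ b, z b = ∏ o, x o ^ B b o := ⟨_, fun _ => rfl⟩
  simp only [← hz'] at hz h2
  have z0 : ∀ b, z b ≠ 0 := fun b => by
    rw [hz']
    exact prod_ne_zero_iff.2 (fun o _ => zpow_ne_zero _ (hx o))
  obtain ⟨v, hv, hm⟩ := exists_max_image T (fun b => V.valuation (z b)) ⟨b, hb⟩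
  have h3 : 1 < V.valuation (z v) :=
    (not_le.1 (fun h => hz ((V.valuation_le_one_iff _).1 h))).trans_le (hm b hb)
  have h4 : 0 < V.valuation (z v) := zero_lt_one.trans h3
  obtain ⟨w, w0, w1, w2⟩ : ∃ w : κ ⊕ Option ν → L, (∀ j ∉ T.disjSum (Om em), w j = 0) ∧
      (∀ b ∈ T, w (Sum.inl b) = z b / z v) ∧ ∀ o ∈ Om em, w (Sum.inr o) = x o :=
    ⟨fun j => if j ∈ T.disjSum (Om em) then Sum.elim (fun b => z b / z v) x j else 0,
      fun j hj => if_neg hj, fun b hb => if_pos (inl_mem_disjSum.2 hb),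
      fun o ho => if_pos (inr_mem_disjSum.2 ho)⟩
  have hO : ∀ o ∈ Om em, δ (x o) = 0 := fun o ho => h1 o (mem_filter.1 ho).2
  have hO' : ∀ o ∈ Om em, V.valuation (x o) = 1 := fun o ho => by
    refine le_antisymm ((V.valuation_le_one_iff _).2 (hV _ (hO o ho))) ?_
    have := (V.valuation_le_one_iff _).2 (hV _ ((cst δ).inv_mem (x := x o) (hO o ho)))
    rwa [map_inv₀, inv_le_one₀ ((Valuation.pos_iff _).2 (hx o))] at this
  obtain ⟨y, y1, y2⟩ := point V (fun r => hV _ (δ.map_algebraMap r)) w (fun j => by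
    by_cases hj : j ∈ T.disjSum (Om em)
    · rcases j with b | o
      · rw [w1 b (inl_mem_disjSum.1 hj), ← V.valuation_le_one_iff, map_div₀, div_le_one₀ h4]
        exact hm b (inl_mem_disjSum.1 hj)
      · rw [w2 o (inr_mem_disjSum.1 hj)]
        exact hV _ (hO o (inr_mem_disjSum.1 hj))
    · rw [w0 j hj]
      exact zero_mem _) (X (Sum.inl v) * ∏ o ∈ Om em, X (Sum.inr o)) (by
    simp only [map_mul, map_prod, aeval_X]
    rw [w1 v hv, div_self (z0 v), map_one, one_mul]
    exact prod_eq_one (fun o ho => by rw [w2 o ho, hO' o ho]))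
  simp only [map_mul, map_prod, aeval_X] at y1
  have hw : ∀ k : κ ⊕ Option ν → ℕ, ∏ j ∈ T.disjSum (Om em), w j ^ k j =
      (∏ o, x o ^ (∑ j ∈ T.disjSum (Om em), k j • B1 B j) o) / z v ^ ∑ b ∈ T, k (Sum.inl b) := by
    intro k
    rw [mon_sum hx, prod_disjSum, prod_disjSum, ← prod_pow_eq_pow_sum, mul_div_right_comm,
      ← prod_div_distrib]
    congr 1
    · exact prod_congr rfl (fun b hb => by rw [w1 b hb, div_pow, hz']; rfl)
    · refine prod_congr rfl (fun o ho => ?_)
      rw [w2 o ho, prod_eq_single o (fun o' _ h => by simp [B1, h]) (by simp)]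
      simp [B1]
  refine core hT y (fun k k' e => ?_) (fun o => ?_) hv (left_ne_zero_of_mul y1)
    (prod_ne_zero_iff.1 (right_ne_zero_of_mul y1))
  · have h5 : ∑ b ∈ T, k (Sum.inl b) = ∑ b ∈ T, k' (Sum.inl b) := by
      have := deg_eq hd k
      rw [e, deg_eq hd k'] at this
      exact_mod_cast this.symm
    have := y2 (∏ j ∈ T.disjSum (Om em), X j ^ k j - ∏ j ∈ T.disjSum (Om em), X j ^ k' j) (by
      simp only [map_sub, map_prod, map_pow, aeval_X]
      rw [hw, hw, e, h5, sub_self, map_zero]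
      exact zero_lt_one)
    simpa only [map_sub, map_prod, map_pow, aeval_X, sub_eq_zero] using this
  · have := y2 (∑ b ∈ T, C (c b) * (B b o : MvPolynomial _ ℂ) * X (Sum.inl b)) (by
      simp only [map_sum, map_mul, aeval_C, aeval_X, map_intCast]
      rw [sum_congr rfl (fun b hb => by rw [w1 b hb, ← mul_div_assoc]), ← sum_div, map_div₀,
        div_lt_one₀ h4]
      exact ((V.valuation_le_one_iff _).2 (hV _ (h2 o))).trans_lt h3)
    simpa only [map_sum, map_mul, aeval_C, aeval_X, map_intCast, Algebra.algebraMap_self,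
      RingHom.id_apply] using this

end Pool.Agent.MP_5d9b3c_ag.H48R
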