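import Pool.Agent.MP_5d9b3c_ag.H48R.Spec
import Pool.Agent.MP_5d9b3c_ag.H48N.CM

/-!
The relative complexes of shifted cones.
-/

namespace Pool.Agent.MP_5d9b3c_ag.H48R

open Finset Pool.Agent.MP_5d9b3c_ag.H22 Pool.Agent.MP_5d9b3c_ag.H48N

namespace CMRAux

/-- Normalised facets. -/
lemma facet_norm (hF : FacetStmt) {ι α : Type} [Fintype ι] [Fintype α] (v : α → ι → ℚ)
    (T : Finset α) :
    ∃ G : Finset (ι → ℚ), (∀ g ∈ G, (∀ j ∈ T, 0 ≤ g ⬝ᵥ v j) ∧ g ⬝ᵥ ∑ j ∈ T, v j = 1 ∧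
        rk v T ≤ rk v (T.filter (fun j => g ⬝ᵥ v j = 0)) + 1) ∧
      ∀ x ∈ Submodule.span ℚ (v '' (T : Set α)), (∀ g ∈ G, 0 ≤ g ⬝ᵥ x) → Cone v T x := by
  classical
  obtain ⟨G, h1, h2⟩ := hF ι α v T
  have h0 : ∀ g ∈ G, 0 ≤ g ⬝ᵥ ∑ j ∈ T, v j := fun g hg => by
    rw [dotProduct_sum]
    exact sum_nonneg (h1 g hg).1
  refine ⟨(G.filter (fun g => g ⬝ᵥ ∑ j ∈ T, v j ≠ 0)).image
    (fun g => (g ⬝ᵥ ∑ j ∈ T, v j)⁻¹ • g), fun g' hg' => ?_, fun x hx h => h2 x hx (fun g hg => ?_)⟩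
  · obtain ⟨g, hg, rfl⟩ := mem_image.1 hg'
    obtain ⟨hg, h3⟩ := mem_filter.1 hg
    simp only [smul_dotProduct, smul_eq_mul]
    refine ⟨fun j hj => mul_nonneg (inv_nonneg.2 (h0 g hg)) ((h1 g hg).1 j hj),
      inv_mul_cancel₀ h3, ?_⟩
    rw [filter_congr (q := fun j => g ⬝ᵥ v j = 0) (fun j _ => by simp [h3])]
    exact (h1 g hg).2
  · by_cases h3 : g ⬝ᵥ ∑ j ∈ T, v j = 0
    · rw [dotProduct_sum, sum_eq_zero_iff_of_nonneg (h1 g hg).1] at h3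
      exact (dot_zero_of_span hx h3).ge
    · have := h _ (mem_image_of_mem _ (mem_filter.2 ⟨hg, h3⟩))
      rw [smul_dotProduct, smul_eq_mul] at this
      exact nonneg_of_mul_nonneg_right this (inv_pos.2 (lt_of_le_of_ne (h0 g hg) (Ne.symm h3)))

variable {ι ν κ : Type} {B : κ → Pt ν} {c : κ → ℂ} {em : ι ↪ ν} {A : Finset ι} {T : Finset κ}

lemma pz_add (q : Vq ν) (y : ι → ℚ) (u : Pt ν) (b : κ) :
    pz em q y (u + B b) = pz em q y u + bz B em b := by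
  ext i
  simp only [pz, hat_add, Pi.add_apply, Bq_some, bz]
  ring

lemma pz_sub (q : Vq ν) (y z : ι → ℚ) (u : Pt ν) : pz em q (y - z) u = pz em q y u + z := by
  ext i
  simp only [pz, Pi.add_apply, Pi.sub_apply]
  ring

lemma CZ_add {q : Vq ν} {y : ι → ℚ} {u : Pt ν} (h : u ∈ CZ B em q T y) {b : κ} (hb : b ∈ T) :
    u + B b ∈ CZ B em q T y := by
  change Cone _ _ _
  rw [pz_add]
  exact Cone.add h (Cone.single hb)

variable [Fintype ι]

lemma disc_pz {γ : Type} [Finite γ] (n : γ → ι → ℚ) (q : Vq ν) (y : ι → ℚ) :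
    ∃ m : ℕ, 0 < m ∧ ∀ j, ∀ u : Pt ν, ∃ z : ℤ, m * (n j ⬝ᵥ pz em q y u) = z := by
  obtain ⟨m, hm, h⟩ := disc n (fun j => n j ⬝ᵥ pz em q y 0)
  refine ⟨m, hm, fun j u => ?_⟩
  obtain ⟨z, hz⟩ := h j (fun i => u (some (em i)))
  refine ⟨z, ?_⟩
  rw [← hz, ← dotProduct_add]
  congr 2
  ext i
  simp only [pz, hat, Pi.add_apply, Pi.zero_apply, Int.cast_zero]
  ring

/-- The apex can be moved to a generic position. -/
lemma generic [Fintype κ] (hG : GenStmt) (G : Finset (ι → ℚ))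
    (h1 : ∀ g ∈ G, ∀ b ∈ T, 0 ≤ g ⬝ᵥ bz B em b)
    (h2 : ∀ x ∈ Submodule.span ℚ (bz B em '' (T : Set κ)), (∀ g ∈ G, 0 ≤ g ⬝ᵥ x) →
      Cone (bz B em) T x) (q : Vq ν) (y : ι → ℚ) : ∃ y' : ι → ℚ, CZ B em q T y' = CZ B em q T y ∧
      ∀ g ∈ G, ∀ g' ∈ G, ∀ u u' : Pt ν, g ⬝ᵥ pz em q y' u = g' ⬝ᵥ pz em q y' u' →
        ∀ b ∈ T, g ⬝ᵥ bz B em b = g' ⬝ᵥ bz B em b := by
  obtain ⟨m, hm, hd⟩ := disc_pz (em := em) (fun g : G => g.1) q y
  have hm' : (0 : ℚ) < m := by exact_mod_cast hm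
  obtain ⟨o, ho1, ho2, ho3⟩ := hG κ (G × G) T (fun p b => (p.1.1 - p.2.1) ⬝ᵥ bz B em b) 0 1 one_pos
  obtain ⟨z, hz⟩ : ∃ z : ι → ℚ, z = ∑ b ∈ T, o b • bz B em b := ⟨_, rfl⟩
  have hc : Cone (bz B em) T z := hz ▸ Cone.of_sum (fun b hb => (ho1 b hb).1.le)
  have hdot : ∀ n : ι → ℚ, (fun b => n ⬝ᵥ bz B em b) ⬝ᵥ o = n ⬝ᵥ z := fun n => by
    rw [hz, dotProduct_sum, dotProduct,
      ← sum_subset (subset_univ T) (fun b _ hb => by rw [ho2 b hb, mul_zero])]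
    exact sum_congr rfl (fun b _ => by rw [dotProduct_smul, smul_eq_mul, mul_comm])
  obtain ⟨ε, hε, h3⟩ := H48.small G (fun _ => 1) (fun g => -(m * (g ⬝ᵥ z))) (fun _ _ => one_pos)
  have h4 : ∀ g ∈ G, 0 ≤ ε * (m * (g ⬝ᵥ z)) := fun g hg =>
    mul_nonneg hε.le (mul_nonneg hm'.le (hc.dot_nonneg (h1 g hg)))
  refine ⟨y - ε • z, ?_, fun g hg g' hg' u u' h b hb => ?_⟩
  · ext u
    change Cone _ _ _ ↔ Cone _ _ _
    rw [pz_sub]
    refine ⟨fun h => h2 _ ?_ (fun g hg => ?_), fun h => h.add (hc.smul hε.le)⟩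
    · simpa using sub_mem h.mem_span (hc.smul hε.le).mem_span
    · have h5 := h.dot_nonneg (h1 g hg)
      rw [dotProduct_add, dotProduct_smul, smul_eq_mul] at h5
      obtain ⟨t, ht⟩ := hd ⟨g, hg⟩ u
      have h6 := mul_nonneg hm'.le h5
      have h7 := h3 g hg
      have h8 : (-1 : ℚ) < t := by
        rw [← ht]
        nlinarith
      have h9 : 0 ≤ t := by
        have : -1 < t := by exact_mod_cast h8
        omega
      have h10 : (0 : ℚ) ≤ t := by exact_mod_cast h9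
      rw [← ht] at h10
      exact nonneg_of_mul_nonneg_right h10 hm'
  · by_contra hne
    have h5 := ho3 (⟨g, hg⟩, ⟨g', hg'⟩) ⟨b, hb, by rwa [sub_dotProduct, sub_ne_zero]⟩
    rw [hdot, sub_dotProduct] at h5
    simp only [pz_sub, dotProduct_add, dotProduct_smul, smul_eq_mul] at h
    obtain ⟨t, ht⟩ := hd ⟨g, hg⟩ u
    obtain ⟨t', ht'⟩ := hd ⟨g', hg'⟩ u'
    have h6 : ((t - t' : ℤ) : ℚ) = ε * (m * (g' ⬝ᵥ z)) - ε * (m * (g ⬝ᵥ z)) := by
      push_cast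
      rw [← ht, ← ht']
      linear_combination (m : ℚ) * h
    have h7 := h3 g hg
    have h8 := h3 g' hg'
    have h9 := h4 g hg
    have h10 := h4 g' hg'
    rw [CMAux.int_zero (by rw [h6]; linarith) (by rw [h6]; linarith)] at h6
    have h11 : ε * (m * (g ⬝ᵥ z - g' ⬝ᵥ z)) = 0 := by linear_combination h6
    rw [mul_eq_zero, mul_eq_zero] at h11
    apply h5
    rw [(h11.resolve_left hε.ne').resolve_left hm'.ne']
    simp

/-- Faces of faces are faces. -/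
lemma faceO_face [Fintype ν] (h : FaceO B c em T) {g : ι → ℚ} (hg : ∀ b ∈ T, 0 ≤ g ⬝ᵥ bz B em b) :
    FaceO B c em (T.filter (fun b => g ⬝ᵥ bz B em b = 0)) := by
  intro n h1 h2
  obtain ⟨ε, hε, h3⟩ := H48.small (T.filter (fun b => g ⬝ᵥ bz B em b ≠ 0))
    (fun b => g ⬝ᵥ bz B em b) (fun b => n ⬝ᵥ bz B em b) (fun b hb =>
      lt_of_le_of_ne (hg b (mem_filter.1 hb).1) (mem_filter.1 hb).2.symm)
  have e : ∀ b, (g + ε • n) ⬝ᵥ bz B em b = g ⬝ᵥ bz B em b + ε * (n ⬝ᵥ bz B em b) := fun b => by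
    rw [add_dotProduct, smul_dotProduct, smul_eq_mul]
  have e2 : T.filter (fun b => (g + ε • n) ⬝ᵥ bz B em b = 0) =
      (T.filter (fun b => g ⬝ᵥ bz B em b = 0)).filter (fun b => n ⬝ᵥ bz B em b = 0) := by
    ext b
    simp only [mem_filter, e]
    constructor
    · rintro ⟨h4, h5⟩
      by_cases h6 : g ⬝ᵥ bz B em b = 0
      · rw [h6, zero_add] at h5
        exact ⟨⟨h4, h6⟩, (mul_eq_zero.1 h5).resolve_left hε.ne'⟩
      · exact absurd h5 (h3 b (mem_filter.2 ⟨h4, h6⟩)).ne'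
    · rintro ⟨⟨h4, h5⟩, h6⟩
      exact ⟨h4, by rw [h5, h6, mul_zero, add_zero]⟩
  rw [← e2] at h2 ⊢
  refine h _ (fun b hb => ?_) h2
  rw [e]
  by_cases h6 : g ⬝ᵥ bz B em b = 0
  · rw [h6, zero_add]
    exact mul_nonneg hε.le (h1 b (mem_filter.2 ⟨hb, h6⟩))
  · exact (h3 b (mem_filter.2 ⟨hb, h6⟩)).le

variable [Fintype κ] [DecidableEq κ] [LinearOrder ι]

omit [Fintype ι] [LinearOrder ι] in
lemma comm_Fz : Comm (Fz B c T em) := fun _ _ => comm_FT _ _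

omit [Fintype ι] in
lemma stab_CZ (q : Vq ν) (y : ι → ℚ) : Stab (Fz B c T em) (res A (CZ B em q T y)) :=
  Stab.res A (fun _ _ _ hu => FT_mem _ (fun _ hb => CZ_add hu hb))

/-- One layer of the filtration. -/
lemma layer {G : Finset (ι → ℚ)} {v : ι → ℚ} (hv : Cone (bz B em) T v) {q : Vq ν} {y : ι → ℚ}
    {k : ℕ} {δ : ℚ} (hδ : 0 < δ) (h1 : ∀ g ∈ G, (∀ b ∈ T, 0 ≤ g ⬝ᵥ bz B em b) ∧ g ⬝ᵥ v = 1)
    (h2 : ∀ x ∈ Submodule.span ℚ (bz B em '' (T : Set κ)), (∀ g ∈ G, 0 ≤ g ⬝ᵥ x) →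
      Cone (bz B em) T x)
    (h3 : ∀ g ∈ G, ∀ g' ∈ G, ∀ u u' : Pt ν, g ⬝ᵥ pz em q y u = g' ⬝ᵥ pz em q y u' →
      ∀ b ∈ T, g ⬝ᵥ bz B em b = g' ⬝ᵥ bz B em b)
    (h4 : ∀ g ∈ G, ∀ u : Pt ν, 0 ≤ g ⬝ᵥ pz em q y u → g ⬝ᵥ pz em q y u < δ → g ⬝ᵥ pz em q y u = 0)
    (h5 : ∀ g ∈ G, Ex (Fz B c (T.filter (fun b => g ⬝ᵥ bz B em b = 0)) em) k
      (res A (CZ B em q (T.filter (fun b => g ⬝ᵥ bz B em b = 0)) y)) (emp _ _)) :
    Ex (Fz B c T em) k (res A (CZ B em q T y)) (res A (CZ B em q T (y + δ • v))) := by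
  have e : ∀ u, pz em q (y + δ • v) u = pz em q y u - δ • v := fun u => by
    rw [← sub_neg_eq_add, pz_sub, sub_eq_add_neg]
  have key : ∀ u ∈ CZ B em q T y, u ∉ CZ B em q T (y + δ • v) →
      ∃ g ∈ G, g ⬝ᵥ pz em q y u = 0 := by
    intro u hu hu'
    have hu1 : Cone (bz B em) T (pz em q y u) := hu
    by_contra hne
    apply hu'
    change Cone _ _ _
    rw [e]
    refine h2 _ (sub_mem hu1.mem_span (hv.smul hδ.le).mem_span) (fun g hg => ?_)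
    have h6 := hu1.dot_nonneg (h1 g hg).1
    rw [dotProduct_sub, dotProduct_smul, smul_eq_mul, (h1 g hg).2]
    by_contra h8
    exact hne ⟨g, hg, h4 g hg u h6 (by linarith)⟩
  by_cases hne : ∃ u0 ∈ CZ B em q T y, u0 ∉ CZ B em q T (y + δ • v)
  swap
  · refine Ex.of_subset (fun J _ u hu => ⟨hu.1, ?_⟩)
    by_contra h
    exact hne ⟨u, hu.2, h⟩
  obtain ⟨u0, h6, h7⟩ := hne
  obtain ⟨g0, hg0, h9⟩ := key u0 h6 h7
  have k1 : ∀ u ∈ CZ B em q T y, u ∉ CZ B em q T (y + δ • v) →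
      u ∈ CZ B em q (T.filter (fun b => g0 ⬝ᵥ bz B em b = 0)) y := by
    intro u hu hu'
    obtain ⟨g, hg, h11⟩ := key u hu hu'
    have h12 := h3 g hg g0 hg0 u u0 (h11.trans h9.symm)
    rw [← filter_congr (p := fun b => g ⬝ᵥ bz B em b = 0) (fun b hb => by rw [h12 b hb])]
    exact Cone.face hu (h1 g hg).1 h11.le
  have k2 : ∀ u ∈ CZ B em q (T.filter (fun b => g0 ⬝ᵥ bz B em b = 0)) y,
      g0 ⬝ᵥ pz em q y u = 0 := fun u hu => Cone.dot_zero hu (fun b hb => (mem_filter.1 hb).2)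
  have k3 : ∀ u ∈ CZ B em q (T.filter (fun b => g0 ⬝ᵥ bz B em b = 0)) y, u ∈ CZ B em q T y :=
    fun u hu => Cone.mono hu (filter_subset _ _)
  refine Ex.chg (h5 g0 hg0) (stab_CZ q _) (stab_CZ q _) (fun J u hu => ?_)
    (fun J u hu => ⟨hu.1, k3 u hu.2⟩) (fun J u hu hu' => ?_) (fun J i _ u hu => ?_)
  · by_cases h : u ∈ CZ B em q T (y + δ • v)
    · exact Or.inr ⟨hu.1, h⟩
    · exact Or.inl ⟨hu.1, k1 u hu.2 h⟩
  · have h10 := Cone.dot_nonneg hu'.2 (h1 g0 hg0).1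
    rw [e, dotProduct_sub, dotProduct_smul, smul_eq_mul, k2 u hu.2, (h1 g0 hg0).2] at h10
    linarith
  · refine op_sub_mem (fun h => absurd rfl h) (fun b hb => ⟨(subset_insert _ _).trans hu.1, ?_⟩)
    have hbT : b ∈ T := by
      by_contra h
      exact hb (by rw [if_neg h, if_neg (fun h' => h (mem_filter.1 h').1)])
    by_contra h
    have h10 := k2 _ (k1 _ (CZ_add (k3 u hu.2) hbT) h)
    rw [pz_add, dotProduct_add, k2 u hu.2, zero_add] at h10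
    exact hb (by rw [if_pos hbT, if_pos (mem_filter.2 ⟨hbT, h10⟩)])

end CMRAux

open CMRAux in
theorem cmr (ht : TorStmt) (hF : FacetStmt) (hG : GenStmt) : CMRStmt := by
  intro ι ν κ _ _ _ _ _ _ B c em A T
  induction T using Finset.strongInduction with
  | H T ih =>
  intro hT hH hS q y k hk
  obtain ⟨G, h1, h2⟩ := facet_norm hF (bz B em) T
  obtain ⟨v, hv⟩ : ∃ v, v = ∑ j ∈ T, bz B em j := ⟨_, rfl⟩
  have hc : Cone (bz B em) T v := by
    rw [hv]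
    simpa using Cone.of_sum (v := bz B em) (T := T) (s := fun _ => 1) (fun _ _ => zero_le_one)
  rw [← hv] at h1
  obtain ⟨y', e, h3⟩ := generic hG G (fun g hg => (h1 g hg).1) h2 q y
  rw [← e]
  obtain ⟨m, hm, hd⟩ := disc_pz (em := em) (fun g : G => g.1) q y'
  have hm' : (0 : ℚ) < m := by exact_mod_cast hm
  obtain ⟨Y, hY⟩ : ∃ Y : ℕ → ι → ℚ, Y = fun n : ℕ => y' - ((n : ℚ) / m) • v := ⟨_, rfl⟩
  have e0 : Y 0 = y' := by simp [hY]
  have e1 : ∀ n, Y n = Y (n + 1) + (1 / m : ℚ) • v := fun n => by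
    simp only [hY, Nat.cast_succ, add_div, add_smul]
    abel
  have e2 : ∀ n u, pz em q (Y (n + m)) u = pz em q (Y n) u + v := fun n u => by
    simp only [hY, pz_sub, Nat.cast_add, add_div, div_self hm'.ne', add_smul, one_smul]
    abel
  have e3 : ∀ n u, ∀ g ∈ G, g ⬝ᵥ pz em q (Y n) u = g ⬝ᵥ pz em q y' u + n / m := fun n u g hg => by
    simp only [hY, pz_sub, dotProduct_add, dotProduct_smul, smul_eq_mul, (h1 g hg).2.1, mul_one]
  have k5 : Ex (Fz B c T em) k (res A {u | ∃ n, u ∈ CZ B em q T (Y n)}) (emp _ _) := by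
    refine ht ι ν κ B c em A T hT hH hS {u | ∃ n, u ∈ CZ B em q T (Y n)} (fun u b hb =>
      ⟨fun hu => ?_, fun hu => Exists.imp (fun n hn => CZ_add hn hb) hu⟩) k hk
    obtain ⟨n, hn⟩ := hu
    refine ⟨n + m, ?_⟩
    have h4 : Cone (bz B em) T (pz em q (Y n) (u + B b)) := hn
    change Cone _ _ _
    rw [e2, hv, ← add_sum_erase _ _ hb, ← add_assoc, ← pz_add]
    refine h4.add (Cone.mono (T := T.erase b) ?_ (erase_subset _ _))
    simpa using Cone.of_sum (v := bz B em) (T := T.erase b) (s := fun _ => 1)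
      (fun _ _ => zero_le_one)
  have k6 : Ex (Fz B c T em) (k + 1) (res A {u | ∃ n, u ∈ CZ B em q T (Y n)})
      (res A (CZ B em q T (Y 0))) := by
    refine Ex.chain comm_Fz (fun n => res A (CZ B em q T (Y n))) (fun n => ?_)
      (fun n J u hu => ⟨hu.1, ?_⟩) (fun n J u hu => ⟨hu.1, n, hu.2⟩)
      (fun J u hu => hu.2.imp (fun n hn => ⟨hu.1, hn⟩))
    · rw [e1 n]
      refine layer hc (by positivity) (fun g hg => ⟨(h1 g hg).1, (h1 g hg).2.1⟩) h2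
        (fun g hg g' hg' u u' h6 => h3 g hg g' hg' u u' ?_) (fun g hg u h5 h6 => ?_)
        (fun g hg => ?_)
      · rw [e3 _ _ _ hg, e3 _ _ _ hg'] at h6
        exact add_right_cancel h6
      · obtain ⟨t, ht⟩ := hd ⟨g, hg⟩ u
        have h7 : ((t + (n + 1 : ℕ) : ℤ) : ℚ) = m * (g ⬝ᵥ pz em q (Y (n + 1)) u) := by
          rw [e3 _ _ _ hg, mul_add, mul_div_cancel₀ _ hm'.ne', ht]
          push_cast
          ring
        rw [lt_div_iff₀ hm'] at h6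
        have h8 := mul_nonneg hm'.le h5
        rw [CMAux.int_zero (by rw [h7]; linarith) (by rw [h7]; linarith)] at h7
        exact (mul_eq_zero.1 h7.symm).resolve_left hm'.ne'
      · refine ih _ (filter_ssubset.2 ?_) (faceO_face hT (h1 g hg).1)
          (hH.imp (fun d hd b hb => hd b (mem_filter.1 hb).1))
          (fun b hb => hS b (mem_filter.1 hb).1) q _ _ ?_
        · by_contra h4
          push Not at h4
          have h5 := (h1 g hg).2.1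
          rw [hv, dotProduct_sum, sum_eq_zero h4] at h5
          exact zero_ne_one h5
        · have := (h1 g hg).2.2
          omega
    · have h4 : Cone (bz B em) T (pz em q (Y n) u) := hu.2
      have h5 := h4.add (hc.smul (r := 1 / m) (by positivity))
      change Cone _ _ _
      rwa [← pz_sub, e1 n, add_sub_cancel_right] at h5
  rw [e0] at k6
  exact Ex.two_of_three comm_Fz k6 k5 (fun J u hu => ⟨hu.1, 0, by rw [e0]; exact hu.2⟩)
    (fun J u hu => hu.elim)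

end Pool.Agent.MP_5d9b3c_ag.H48R
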