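import Pool.Agent.MP_5d9b3c_ag.H48R.Spec

/-!
The dimension of the relative critical locus: derivations and isotropic subspaces.
-/

namespace Pool.Agent.MP_5d9b3c_ag.H48R

open Finset Pool.Agent.MP_5d9b3c_ag.H22 Pool.Agent.MP_5d9b3c_ag.H48N

namespace DepAux

open scoped IntermediateField.algebraAdjoinAdjoin in
lemma exists_der {K L σ : Type} [Field K] [Field L] [CharZero L] [Algebra K L] [DecidableEq σ]
    {v : σ → L} (hv : IsTranscendenceBasis K v) (j : σ) :
    ∃ D : Derivation K L L, ∀ i, D (v i) = if i = j then 1 else 0 := by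
  have h1 : Algebra.FormallyEtale (Algebra.adjoin K (Set.range v))
      (IntermediateField.adjoin K (Set.range v)) := .of_isLocalization (nonZeroDivisors _)
  have h2 := hv.isAlgebraic_field
  have h3 : Algebra.FormallyEtale (IntermediateField.adjoin K (Set.range v)) L :=
    Algebra.FormallyEtale.of_isSeparable _ L
  have h4 : Algebra.FormallyEtale (Algebra.adjoin K (Set.range v)) L :=
    .comp _ (IntermediateField.adjoin K (Set.range v)) _
  have he : ∀ a : Algebra.adjoin K (Set.range v),
      MvPolynomial.aeval v (hv.1.aevalEquiv.symm a) = (a : L) := by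
    intro a
    rw [← hv.1.algebraMap_aevalEquiv, AlgEquiv.apply_symm_apply]; rfl
  let δ : Derivation K (Algebra.adjoin K (Set.range v)) L := Derivation.mk'
    ((MvPolynomial.aeval v).toLinearMap ∘ₗ (MvPolynomial.pderiv j).toLinearMap ∘ₗ
      hv.1.aevalEquiv.symm.toLinearMap) (fun a b => by
      simp [Derivation.leibniz, he, Algebra.smul_def])
  refine ⟨((δ.liftKaehlerDifferential.liftBaseChange L) ∘ₗ
    (KaehlerDifferential.tensorKaehlerEquivOfFormallyEtale K (Algebra.adjoin K (Set.range v))
      L).symm.toLinearMap).compDer (KaehlerDifferential.D K L), fun i => ?_⟩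
  have e : v i = algebraMap (Algebra.adjoin K (Set.range v)) L
      (hv.1.aevalEquiv (MvPolynomial.X i)) := by
    rw [hv.1.algebraMap_aevalEquiv, MvPolynomial.aeval_X]
  have := KaehlerDifferential.tensorKaehlerEquivOfFormallyEtale_symm_D_algebraMap K
    (Algebra.adjoin K (Set.range v)) L (hv.1.aevalEquiv (MvPolynomial.X i))
  rw [← e] at this
  change (δ.liftKaehlerDifferential.liftBaseChange L)
    ((KaehlerDifferential.tensorKaehlerEquivOfFormallyEtale K (Algebra.adjoin K (Set.range v))
      L).symm (KaehlerDifferential.D K L (v i))) = _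
  rw [this, LinearMap.liftBaseChange_tmul, one_smul, Derivation.liftKaehlerDifferential_comp_D]
  change MvPolynomial.aeval v (MvPolynomial.pderiv j
    (hv.1.aevalEquiv.symm (hv.1.aevalEquiv (MvPolynomial.X i)))) = _
  rw [AlgEquiv.symm_apply_apply, MvPolynomial.pderiv_X, Pi.single_apply]
  split_ifs <;> simp

/-- Dual derivations of an algebraically independent family. -/
lemma exists_dual {K L σ : Type} [Field K] [Field L] [CharZero L] [Algebra K L] [DecidableEq σ]
    {z : σ → L} (hz : AlgebraicIndependent K z) (j : σ) :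
    ∃ D : Derivation K L L, ∀ i, D (z i) = if i = j then 1 else 0 := by
  classical
  obtain ⟨t, ht, hb⟩ := exists_isTranscendenceBasis_superset (R := K) (s := Set.range z)
    hz.to_subtype_range
  obtain ⟨D, hD⟩ := exists_der hb ⟨z j, ht ⟨j, rfl⟩⟩
  refine ⟨D, fun i => (hD ⟨z i, ht ⟨i, rfl⟩⟩).trans ?_⟩
  simp [hz.injective.eq_iff]

lemma der_prod {K L O : Type} [Field K] [Field L] [Algebra K L] (D : Derivation K L L)
    (x : O → L) (hx : ∀ i, x i ≠ 0) (e : O → ℤ) (s : Finset O) :
    D (∏ k ∈ s, x k ^ e k) = (∏ k ∈ s, x k ^ e k) * ∑ k ∈ s, e k * (D (x k) / x k) := by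
  classical
  induction s using Finset.induction_on with
  | empty => simp
  | insert k s hk ih =>
    rw [prod_insert hk, sum_insert hk, Derivation.leibniz, ih, Derivation.leibniz_zpow,
      zpow_sub_one₀ (hx k)]
    simp only [smul_eq_mul, zsmul_eq_mul]
    ring

/-- Pairwise isotropic vectors are linearly dependent. -/
lemma iso_dep {L M W : Type} [Field L] [Fintype M] [Fintype W] (P Q : Matrix M W L)
    (hc : Fintype.card W < Fintype.card M)
    (hs : ∀ m m', ∑ o, Q m o * P m' o = ∑ o, Q m' o * P m o) :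
    ∃ β : M → L, β ≠ 0 ∧ (∀ o, ∑ m, β m * P m o = 0) ∧ ∀ o, ∑ m, β m * Q m o = 0 := by
  classical
  by_contra hn
  have h1 := LinearMap.finrank_range_add_finrank_ker P.mulVecLin
  have h2 := LinearMap.finrank_range_add_finrank_ker P.transpose.mulVecLin
  have h3 : Module.finrank L (LinearMap.range P.transpose.mulVecLin) =
      Module.finrank L (LinearMap.range P.mulVecLin) := Matrix.rank_transpose P
  rw [Module.finrank_fintype_fun_eq_card] at h1 h2
  have h4 : ∀ (R : Matrix M W L) (β : M → L) o, R.transpose.mulVecLin β o = ∑ m, β m * R m o :=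
    fun R β o => by simp [Matrix.vecMul, dotProduct]
  have h5 : ∀ β ∈ LinearMap.ker P.transpose.mulVecLin,
      Q.transpose.mulVecLin β ∈ LinearMap.ker P.mulVecLin := fun β hβ => by
    have h6 : ∀ o, ∑ m, β m * P m o = 0 := fun o => (h4 P β o).symm.trans (congrFun hβ o)
    refine funext fun m' => ?_
    calc P.mulVecLin (Q.transpose.mulVecLin β) m'
        = ∑ o, P m' o * ∑ m, β m * Q m o := by
          simp only [← h4]
          rfl
      _ = ∑ m, β m * ∑ o, Q m o * P m' o := by
          simp only [mul_sum]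
          rw [sum_comm]
          exact sum_congr rfl fun m _ => sum_congr rfl fun o _ => by ring
      _ = ∑ o, Q m' o * ∑ m, β m * P m o := by
          simp only [hs _ m', mul_sum]
          rw [sum_comm]
          exact sum_congr rfl fun m _ => sum_congr rfl fun o _ => by ring
      _ = 0 := by simp [h6]
  have h7 : Function.Injective (Q.transpose.mulVecLin.restrict h5) := by
    refine (injective_iff_map_eq_zero _).2 fun β hβ => Subtype.ext ?_
    by_contra h8
    exact hn ⟨β.1, h8, fun o => (h4 P β.1 o).symm.trans (congrFun β.2 o),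
      fun o => (h4 Q β.1 o).symm.trans (congrFun (congrArg Subtype.val hβ) o)⟩
  have h8 := LinearMap.finrank_le_finrank_of_injective h7
  omega

lemma map_U {O L : Type} [Fintype O] [DecidableEq O] [Field L] [Algebra ℂ L] (φ : RR O →ₐ[ℂ] L)
    (u : Lat O) : φ (U u) = ∏ o, φ (U (Pi.single o 1)) ^ u o := by
  let χ : Multiplicative (Lat O) →* L := (φ : RR O →* L).comp (AddMonoidAlgebra.of ℂ (Lat O))
  have h1 : ∀ v, φ (U v) = χ (Multiplicative.ofAdd v) := fun v => rfl
  have h2 : u = ∑ o, u o • (Pi.single o 1 : Lat O) := by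
    funext o
    simp [Finset.sum_apply, Pi.single_apply]
  simp only [h1, ← map_zpow, ← map_prod, ← ofAdd_zsmul, ← ofAdd_sum]
  rw [← h2]

end DepAux

open DepAux in
theorem dep (h : AlgStmt) : DepStmt := by
  classical
  intro ι ν κ _ _ _ _ _ _ B c em A T hF hH hS k hk lam hlam
  by_contra hn
  obtain ⟨p, hp, hIp, hd⟩ := Ideal.exists_le_prime_disjoint
    (Ideal.span ((fun i => Fr B c T (some (em i))) '' (A : Set ι)))
    ((nonZeroDivisors (MvPolynomial (Fin (k + 1)) ℂ)).map
      (MvPolynomial.aeval (R := ℂ) fun m => U (lam m)))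
    (Set.disjoint_left.2 (by
      rintro _ h1 ⟨Φ, h2, rfl⟩
      exact hn ⟨Φ, nonZeroDivisors.ne_zero h2, h1⟩))
  obtain ⟨L, _, _, φ, hφ⟩ : ∃ (L : Type) (_ : Field L) (_ : Algebra ℂ L)
      (φ : RR (Option ν) →ₐ[ℂ] L), ∀ r, φ r = 0 ↔ r ∈ p :=
    ⟨p.ResidueField, inferInstance, inferInstance, IsScalarTower.toAlgHom ℂ _ _,
      fun r => Ideal.algebraMap_residueField_eq_zero⟩
  have : CharZero L := charZero_of_injective_algebraMap (algebraMap ℂ L).injective
  set x : Option ν → L := fun o => φ (U (Pi.single o 1)) with hx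
  have hx0 : ∀ o, x o ≠ 0 := fun o => ((isUnit_U _).map φ).ne_zero
  have hU : ∀ u, φ (U u) = ∏ o, x o ^ u o := map_U φ
  have hz : AlgebraicIndependent ℂ fun m => φ (U (lam m)) := by
    refine algebraicIndependent_iff.2 fun Φ hΦ => ?_
    by_contra h0
    refine Set.disjoint_left.1 hd ((hφ _).1 ?_) ⟨Φ, mem_nonZeroDivisors_of_ne_zero h0, rfl⟩
    rw [← hΦ, MvPolynomial.comp_aeval_apply]
  choose D hD using exists_dual hz
  set F : Option ν → L :=
    fun o => ∑ b ∈ T, algebraMap ℂ L (c b) * (B b o : L) * ∏ o', x o' ^ B b o' with hFd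
  have hF0 : ∀ i, F (some (em i)) = 0 := fun i => by
    by_cases hi : i ∈ A
    · rw [← (hφ _).2 (hIp (Ideal.subset_span ⟨i, hi, rfl⟩))]
      simp only [hFd, Fr, map_sum, hU, Algebra.smul_def, map_mul, map_intCast, AlgHom.commutes]
    · exact sum_eq_zero fun b hb => by simp [hS b hb i hi]
  have hDF : ∀ (δ : Derivation ℂ L L) o, δ (F o) = ∑ b ∈ T, algebraMap ℂ L (c b) * (B b o : L) *
      ((∏ o', x o' ^ B b o') * ∑ o', B b o' * (δ (x o') / x o')) := fun δ o => by
    rw [hFd, map_sum]
    refine sum_congr rfl fun b _ => ?_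
    have h1 : δ (algebraMap ℂ L (c b) * (B b o : L)) = 0 := by
      rw [← map_intCast (algebraMap ℂ L), ← map_mul, Derivation.map_algebraMap]
    rw [Derivation.leibniz, h1, smul_zero, add_zero, der_prod δ x hx0, smul_eq_mul]
  have hsym : ∀ δ δ' : Derivation ℂ L L, ∑ o, δ (F o) * (δ' (x o) / x o) =
      ∑ b ∈ T, algebraMap ℂ L (c b) * (∏ o', x o' ^ B b o') *
        ((∑ o', B b o' * (δ (x o') / x o')) * ∑ o', B b o' * (δ' (x o') / x o')) := fun δ δ' => by
    simp only [hDF δ, sum_mul _ _ (δ' _ / _)]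
    rw [sum_comm]
    refine sum_congr rfl fun b _ => ?_
    generalize (∑ o', (B b o' : L) * (δ (x o') / x o')) = S
    rw [mul_sum, mul_sum]
    exact sum_congr rfl fun o _ => by ring
  have hsub : ∀ δ δ' : Derivation ℂ L L,
      ∑ o : {o : Option ν // o ∉ Set.range fun i => some (em i)}, δ (F o) * (δ' (x o) / x o) =
        ∑ o, δ (F o) * (δ' (x o) / x o) := fun δ δ' => by
    rw [← Fintype.sum_subtype_add_sum_subtype (fun o => o ∈ Set.range fun i => some (em i))
      fun o => δ (F o) * (δ' (x o) / x o)]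
    refine ((add_eq_right).2 (sum_eq_zero fun o _ => ?_)).symm
    obtain ⟨_, i, rfl⟩ := o
    simp [hF0]
  obtain ⟨β, hβ, h1, h2⟩ := iso_dep (M := Fin (k + 1))
    (W := {o : Option ν // o ∉ Set.range fun i => some (em i)})
    (fun m o => D m (x o) / x o) (fun m o => D m (F o)) (by
      rw [Fintype.card_subtype_compl, Fintype.card_option, Fintype.card_fin]
      rw [← Fintype.card_congr (Equiv.ofInjective (fun i => some (em i))
        ((Option.some_injective _).comp em.injective))]
      omega) fun m m' => by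
      rw [hsub, hsub, hsym, hsym]
      exact sum_congr rfl fun b _ => by ring
  have hδ : ∀ y, (∑ m, β m • D m) y = ∑ m, β m * D m y := fun y => by
    have := congrFun (map_sum (Derivation.coeFnAddMonoidHom (R := ℂ) (A := L) (M := L))
      (fun m => β m • D m) univ) y
    refine this.trans ?_
    simp [Finset.sum_apply]
  have h3 : ∀ o, (∀ i, o ≠ some (em i)) → (∑ m, β m • D m) (x o) = 0 := fun o ho => by
    have h4 := h1 ⟨o, fun ⟨i, hi⟩ => ho i hi.symm⟩
    simp only [← mul_div_assoc, ← sum_div, div_eq_zero_iff, hx0, or_false] at h4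
    rw [hδ, h4]
  have h4 := h ι ν κ B c em T hF hH L x (∑ m, β m • D m) hx0 h3 fun o => by
    change (∑ m, β m • D m) (F o) = 0
    by_cases ho : o ∈ Set.range fun i => some (em i)
    · obtain ⟨i, rfl⟩ := ho
      rw [hF0, map_zero]
    · rw [hδ]
      exact h2 ⟨o, ho⟩
  have h5 : ∀ u ∈ Lat0 B em T, ∑ o, (u o : L) * ((∑ m, β m • D m) (x o) / x o) = 0 := by
    intro u hu
    induction hu using AddSubgroup.closure_induction with
    | mem u hu =>
      rcases hu with ⟨b, hb, rfl⟩ | hu
      · have h6 := h4 b hb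
        rw [der_prod _ x hx0] at h6
        exact (mul_eq_zero.1 h6).resolve_left (prod_ne_zero_iff.2 fun o _ => zpow_ne_zero _ (hx0 o))
      · refine sum_eq_zero fun o _ => ?_
        by_cases ho : ∃ i, o = some (em i)
        · obtain ⟨i, rfl⟩ := ho
          rw [hu i, Int.cast_zero, zero_mul]
        · rw [h3 o fun i hi => ho ⟨i, hi⟩, zero_div, mul_zero]
    | zero => simp
    | add u v _ _ hu hv =>
      simp only [Pi.add_apply, Int.cast_add, add_mul, sum_add_distrib, hu, hv, add_zero]
    | neg u _ hu => simp only [Pi.neg_apply, Int.cast_neg, neg_mul, sum_neg_distrib, hu, neg_zero]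
  refine hβ (funext fun j => ?_)
  have h6 : (∑ m, β m • D m) (φ (U (lam j))) = 0 := by
    rw [hU, der_prod _ x hx0, h5 _ (hlam j), mul_zero]
  simpa [hδ, hD] using h6

end Pool.Agent.MP_5d9b3c_ag.H48R
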