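import Pool.Agent.MP_5d9b3c_ag.H48R.Spec
import Pool.Agent.MP_5d9b3c_ag.H48N.BasicK

/-!
Noether normalisation on a torus and the depth of the Koszul complex.
-/

namespace Pool.Agent.MP_5d9b3c_ag.H48R

open Finset Pool.Agent.MP_5d9b3c_ag.H22 Pool.Agent.MP_5d9b3c_ag.H48N

namespace NNAux

section Kos

variable {ι V : Type} [Fintype ι] [LinearOrder ι] [AddCommGroup V] [Module ℂ V]
  {D G : ι → Module.End ℂ V}

lemma kdV_add (e e' : Finset ι → V) : kdV D (e + e') = kdV D e + kdV D e' := by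
  funext J
  simp [kdV, sum_add_distrib]

lemma kdV_zero : kdV D (0 : Finset ι → V) = 0 := by
  funext J
  simp [kdV]

lemma kdV_kdV (h : ∀ i k, Commute (D i) (D k)) (e : Finset ι → V) : kdV D (kdV D e) = 0 := by
  funext J
  obtain ⟨t, ht⟩ : ∃ t : ι → ι → V, t = fun i k => if k = i then 0 else
    (sgn i J * sgn k (insert i J)) • D i (D k (e (insert k (insert i J)))) := ⟨_, rfl⟩
  have h1 : kdV D (kdV D e) J = ∑ i ∈ Jᶜ, ∑ k ∈ Jᶜ, t i k := by
    refine sum_congr rfl (fun i _ => ?_)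
    rw [kdV, map_sum, smul_sum, compl_insert, ← sum_erase (Jᶜ) (a := i) (by simp [ht])]
    refine sum_congr rfl (fun k hk => ?_)
    simp only [ht, if_neg (mem_erase.1 hk).1, map_smul, smul_smul]
  have h2 : ∑ i ∈ Jᶜ, ∑ k ∈ Jᶜ, t i k = -∑ i ∈ Jᶜ, ∑ k ∈ Jᶜ, t i k := by
    conv_rhs => rw [sum_comm]
    rw [← sum_neg_distrib]
    refine sum_congr rfl (fun i hi => ?_)
    rw [← sum_neg_distrib]
    refine sum_congr rfl (fun k hk => ?_)
    by_cases hik : k = i
    · simp [ht, hik]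
    · have h3 := LinearMap.congr_fun (h i k).eq (e (insert k (insert i J)))
      simp only [Module.End.mul_apply] at h3
      simp only [ht, if_neg hik, if_neg (Ne.symm hik)]
      rw [sgn_swap (mem_compl.1 hi) (mem_compl.1 hk) (Ne.symm hik), h3, insert_comm, neg_smul]
  rw [h1, Pi.zero_apply]
  have h3 : (2 : ℂ) • ∑ i ∈ Jᶜ, ∑ k ∈ Jᶜ, t i k = 0 := by
    rw [two_smul]
    exact add_eq_zero_iff_eq_neg.2 h2
  exact (smul_eq_zero.1 h3).resolve_left two_ne_zero

/-- The homotopy. -/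
noncomputable def htV (G : ι → Module.End ℂ V) (e : Finset ι → V) : Finset ι → V :=
  fun J => ∑ i ∈ J, sgn i (J.erase i) • G i (e (J.erase i))

lemma kdV_htV (h : ∀ i k, Commute (G i) (D k)) (e : Finset ι → V) (J : Finset ι) :
    kdV D (htV G e) J + htV G (kdV D e) J = (∑ i, D i * G i) (e J) := by
  have h1 : kdV D (htV G e) J = ∑ i ∈ Jᶜ, (D i * G i) (e J) + ∑ i ∈ Jᶜ, ∑ k ∈ J,
      (sgn i J * sgn k (insert i (J.erase k))) • D i (G k (e (insert i (J.erase k)))) := by
    rw [kdV, ← sum_add_distrib]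
    refine sum_congr rfl (fun i hi => ?_)
    have hi' := mem_compl.1 hi
    rw [htV, sum_insert hi', erase_insert hi', map_add, smul_add, map_smul, smul_smul, sgn_sq,
      one_smul, map_sum, smul_sum]
    congr 1
    refine sum_congr rfl (fun k hk => ?_)
    rw [erase_insert_of_ne (by rintro rfl; exact hi' hk), map_smul, smul_smul]
  have h2 : htV G (kdV D e) J = ∑ k ∈ J, (D k * G k) (e J) + ∑ k ∈ J, ∑ i ∈ Jᶜ,
      (sgn k (J.erase k) * sgn i (J.erase k)) • G k (D i (e (insert i (J.erase k)))) := by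
    rw [htV, ← sum_add_distrib]
    refine sum_congr rfl (fun k hk => ?_)
    rw [kdV, compl_erase, sum_insert (by simpa using hk), insert_erase hk, map_add, smul_add,
      map_smul, smul_smul, sgn_sq, one_smul, map_sum, smul_sum, ← (h k k).eq]
    congr 1
    exact sum_congr rfl (fun i _ => by rw [map_smul, smul_smul])
  rw [h1, h2, add_add_add_comm, sum_comm (s := J), ← sum_add_distrib (s := Jᶜ) (f := fun i =>
    ∑ k ∈ J, _), sum_eq_zero (s := Jᶜ) (f := fun i => _ + _), add_zero, LinearMap.sum_apply,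
    sum_compl_add_sum]
  intro i hi
  rw [← sum_add_distrib]
  refine sum_eq_zero (fun k hk => ?_)
  have hi' := mem_compl.1 hi
  have hik : i ≠ k := by
    rintro rfl
    exact hi' hk
  have h3 := LinearMap.congr_fun (h k i).eq (e (insert i (J.erase k)))
  simp only [Module.End.mul_apply] at h3
  have h4 := sgn_swap (J := J.erase k) (fun h => hi' (mem_of_mem_erase h)) (notMem_erase k J) hik
  rw [insert_erase hk] at h4
  rw [h3, ← add_smul]
  have h5 := sgn_sq i (J.erase k)
  have h6 := sgn_sq i J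
  have : sgn i J * sgn k (insert i (J.erase k)) + sgn k (J.erase k) * sgn i (J.erase k) = 0 := by
    linear_combination (sgn i J * sgn i (J.erase k)) * h4 -
      (sgn i J * sgn k (insert i (J.erase k))) * h5 - (sgn k (J.erase k) * sgn i (J.erase k)) * h6
  rw [this, zero_smul]

lemma kdV_supp {A : Finset ι} {m : ℕ} {e : Finset ι → V}
    (he : ∀ J, ¬ (J ⊆ A ∧ #J = m + 1) → e J = 0) (J : Finset ι) (hJ : ¬ (J ⊆ A ∧ #J = m)) :
    kdV D e J = 0 := by
  refine sum_eq_zero (fun i hi => ?_)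
  rw [he _ (fun h => hJ ⟨(subset_insert _ _).trans h.1, ?_⟩), map_zero, smul_zero]
  have := h.2
  rw [card_insert_of_notMem (mem_compl.1 hi)] at this
  omega

omit [Fintype ι] in
lemma htV_supp {A : Finset ι} {m : ℕ} {e : Finset ι → V} (hG : ∀ i ∉ A, G i = 0)
    (he : ∀ J, ¬ (J ⊆ A ∧ #J = m) → e J = 0) (J : Finset ι) (hJ : ¬ (J ⊆ A ∧ #J = m + 1)) :
    htV G e J = 0 := by
  refine sum_eq_zero (fun i hi => ?_)
  by_cases hA : i ∈ A
  · rw [he _ (fun h => hJ ⟨fun k hk => ?_, ?_⟩), map_zero, smul_zero]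
    · by_cases h3 : k = i
      · rwa [h3]
      · exact h.1 (mem_erase.2 ⟨h3, hk⟩)
    · rw [← card_erase_add_one hi, h.2]
  · rw [hG i hA, LinearMap.zero_apply, smul_zero]

lemma kdV_map {V' : Type} [AddCommGroup V'] [Module ℂ V'] {D' : ι → Module.End ℂ V'}
    (f : V →ₗ[ℂ] V') (hf : ∀ i v, D' i (f v) = f (D i v)) (e : Finset ι → V) :
    kdV D' (fun J => f (e J)) = fun J => f (kdV D e J) := by
  funext J
  simp only [kdV, map_sum, map_smul, hf]

end Kos

section Quot

variable {ι S V : Type} [Fintype ι] [LinearOrder ι] [CommRing S] [Algebra ℂ S]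
  [AddCommGroup V] [Module ℂ V]

lemma act_comm (act : S →ₐ[ℂ] Module.End ℂ V) (a b : S) : Commute (act a) (act b) := by
  rw [Commute, SemiconjBy, ← map_mul, ← map_mul, mul_comm]

lemma act_act (act : S →ₐ[ℂ] Module.End ℂ V) (a b : S) (v : V) :
    act a (act b v) = act b (act a v) :=
  LinearMap.congr_fun (act_comm act a b).eq v

/-- The action on the quotient. -/
noncomputable def actQ (act : S →ₐ[ℂ] Module.End ℂ V) (h : S) :
    S →ₐ[ℂ] Module.End ℂ (V ⧸ LinearMap.range (act h)) where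
  toFun s := Submodule.mapQ _ _ (act s) (by
    rintro _ ⟨v, rfl⟩
    exact ⟨act s v, act_act act h s v⟩)
  map_one' := by
    refine Submodule.linearMap_qext _ ?_
    ext v
    simp
  map_mul' a b := by
    refine Submodule.linearMap_qext _ ?_
    ext v
    simp
  map_zero' := by
    refine Submodule.linearMap_qext _ ?_
    ext v
    simp
  map_add' a b := by
    refine Submodule.linearMap_qext _ ?_
    ext v
    simp
  commutes' r := by
    refine Submodule.linearMap_qext _ ?_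
    ext v
    simp

lemma actQ_mk (act : S →ₐ[ℂ] Module.End ℂ V) (h s : S) (v : V) :
    actQ act h s ((LinearMap.range (act h)).mkQ v) = (LinearMap.range (act h)).mkQ (act s v) := rfl

/-- The long exact sequence. -/
lemma les (act : S →ₐ[ℂ] Module.End ℂ V) (g : ι → S) (A : Finset ι) (h : S)
    (hh : h ∈ Ideal.span (g '' (A : Set ι))) (hinj : Function.Injective (act h)) (m : ℕ)
    (hq : KEx (fun i => actQ act h (g i)) A (m + 1)) : KEx (fun i => act (g i)) A m := by
  classical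
  intro e he hc
  obtain ⟨c, hcs⟩ := (Submodule.mem_span_image_finset_iff_exists_fun' S).1 hh
  obtain ⟨G, hG⟩ : ∃ G : ι → Module.End ℂ V, G = fun i => if i ∈ A then act (c i) else 0 :=
    ⟨_, rfl⟩
  have hG0 : ∀ i ∉ A, G i = 0 := fun i hi => by simp [hG, hi]
  have hGc : ∀ i k, Commute (G i) (act (g k)) := by
    intro i k
    rw [hG]
    dsimp only
    split_ifs
    · exact act_comm act _ _
    · exact Commute.zero_left _
  have hsum : (∑ i, act (g i) * G i) = act h := by
    rw [← hcs, map_sum, ← sum_subset (subset_univ A) (fun i _ hi => by rw [hG0 i hi, mul_zero])]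
    refine sum_congr rfl (fun i hi => ?_)
    simp only [hG, if_pos hi, smul_eq_mul, ← map_mul, mul_comm]
  have h1 : ∀ J, kdV (fun i => act (g i)) (htV G e) J = act h (e J) := by
    intro J
    have := kdV_htV (D := fun i => act (g i)) hGc e J
    rw [hc, hsum] at this
    simpa [htV] using this
  have hs1 := htV_supp hG0 he
  obtain ⟨e2', hs2, he2⟩ := hq (fun J => (LinearMap.range (act h)).mkQ (htV G e J))
    (fun J hJ => by simp only [hs1 J hJ, map_zero]) (by
      rw [kdV_map (D := fun i => act (g i)) _ (fun i v => actQ_mk act h (g i) v)]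
      funext J
      rw [h1]
      exact (Submodule.Quotient.mk_eq_zero _).2 ⟨_, rfl⟩)
  have hl : ∀ J, ∃ v : V, (LinearMap.range (act h)).mkQ v = e2' J ∧
      (¬ (J ⊆ A ∧ #J = m + 1 + 1) → v = 0) := by
    intro J
    by_cases hJ : J ⊆ A ∧ #J = m + 1 + 1
    · obtain ⟨v, hv⟩ := (LinearMap.range (act h)).mkQ_surjective (e2' J)
      exact ⟨v, hv, fun h => absurd hJ h⟩
    · exact ⟨0, by rw [map_zero, hs2 J hJ], fun _ => rfl⟩
  choose e2 hq2 hz2 using hl
  have h3 : ∀ J, ∃ v, act h v = htV G e J - kdV (fun i => act (g i)) e2 J := by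
    intro J
    have h4 := congrFun he2 J
    have h5 : e2' = fun J => (LinearMap.range (act h)).mkQ (e2 J) := funext (fun J => (hq2 J).symm)
    rw [h5, kdV_map (D := fun i => act (g i)) _ (fun i v => actQ_mk act h (g i) v)] at h4
    exact (Submodule.Quotient.eq _).1 h4
  choose e3 he3 using h3
  refine ⟨e3, fun J hJ => hinj ?_, funext (fun J => hinj ?_)⟩
  · rw [he3, hs1 J hJ, kdV_supp hz2 J hJ, sub_zero, map_zero]
  · have h4 : htV G e = kdV (fun i => act (g i)) e2 + fun J => act h (e3 J) := by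
      funext J
      simp [he3]
    rw [← h1, h4, kdV_add, kdV_kdV (fun i k => act_comm act _ _), zero_add,
      kdV_map (D := fun i => act (g i)) (act h) (fun i v => act_act act _ _ v)]

end Quot

section Lau

variable {T T' Z V α : Type} [AddCommGroup T] [AddCommGroup T'] [AddCommGroup V] [Module ℂ V]

lemma repr_shift (bs : Module.Basis (T × Z) ℂ V) (h : Module.End ℂ V) (P : Finset α) (c : α → ℂ)
    (l : α → T) (hh : ∀ t z, h (bs (t, z)) = ∑ d ∈ P, c d • bs (t + l d, z)) (v : V) (t : T)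
    (z : Z) : bs.repr (h v) (t, z) = ∑ d ∈ P, c d * bs.repr v (t - l d, z) := by
  classical
  have : (bs.coord (t, z)) ∘ₗ h = ∑ d ∈ P, c d • bs.coord (t - l d, z) := by
    refine bs.ext (fun ⟨t', z'⟩ => ?_)
    simp only [LinearMap.comp_apply, hh, map_sum, map_smul, LinearMap.sum_apply,
      LinearMap.smul_apply, Module.Basis.coord_apply, Module.Basis.repr_self,
      Finsupp.single_apply, Prod.mk.injEq, eq_sub_iff_add_eq]
  simpa using LinearMap.congr_fun this v

/-- The extreme terms of the product do not vanish. -/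
lemma extreme (bs : Module.Basis (T × Z) ℂ V) (h : Module.End ℂ V) (P : Finset α) (c : α → ℂ)
    (l : α → T) (hh : ∀ t z, h (bs (t, z)) = ∑ d ∈ P, c d • bs (t + l d, z)) (w : T →+ ℤ)
    (d1 : α) (hd : d1 ∈ P) (hc : c d1 ≠ 0) (h1 : ∀ d ∈ P, d ≠ d1 → w (l d) < w (l d1)) (v : V)
    (hv : v ≠ 0) : ∃ x ∈ (bs.repr v).support, (∀ y ∈ (bs.repr v).support, w y.1 ≤ w x.1) ∧
      bs.repr (h v) (x.1 + l d1, x.2) ≠ 0 := by
  have hne : (bs.repr v).support.Nonempty := by
    rw [Finsupp.support_nonempty_iff]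
    simpa using hv
  obtain ⟨x, hx, hm⟩ := exists_max_image _ (fun y : T × Z => w y.1) hne
  refine ⟨x, hx, hm, ?_⟩
  rw [repr_shift bs h P c l hh, sum_eq_single_of_mem d1 hd, add_sub_cancel_right]
  · exact mul_ne_zero hc (Finsupp.mem_support_iff.1 hx)
  · intro d hd' hne'
    have h2 := h1 d hd' hne'
    have : bs.repr v (x.1 + l d1 - l d, x.2) = 0 := by
      by_contra h3
      have := hm _ (Finsupp.mem_support_iff.2 h3)
      simp only [map_sub, map_add] at this
      omega
    rw [this, mul_zero]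

/-- Reduction of a basis vector by its extreme term. -/
lemma reduce (bs : Module.Basis (T × Z) ℂ V) (h : Module.End ℂ V) (P : Finset α) (c : α → ℂ)
    (l : α → T) (hh : ∀ t z, h (bs (t, z)) = ∑ d ∈ P, c d • bs (t + l d, z))
    (d1 : α) (hd : d1 ∈ P) (hc : c d1 ≠ 0) (N : Submodule ℂ V) (hN : LinearMap.range h ≤ N)
    (t : T) (z : Z) (h1 : ∀ d ∈ P, d ≠ d1 → bs (t - l d1 + l d, z) ∈ N) : bs (t, z) ∈ N := by
  classical
  have h2 := hN ⟨bs (t - l d1, z), rfl⟩
  rw [hh, ← add_sum_erase _ _ hd, sub_add_cancel] at h2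
  have h3 : ∑ d ∈ P.erase d1, c d • bs (t - l d1 + l d, z) ∈ N :=
    N.sum_mem (fun d hd' => N.smul_mem _ (h1 d (mem_erase.1 hd').2 (mem_erase.1 hd').1))
  have h4 := N.smul_mem (c d1)⁻¹ ((N.add_mem_iff_left h3).1 h2)
  rwa [smul_smul, inv_mul_cancel₀ hc, one_smul] at h4

lemma laurent (bs : Module.Basis ((ℤ × T') × Z) ℂ V) (h : Module.End ℂ V) (P : Finset α)
    (c : α → ℂ) (l : α → ℤ × T')
    (hh : ∀ t z, h (bs (t, z)) = ∑ d ∈ P, c d • bs (t + l d, z)) (hP : P.Nonempty)
    (hc : ∀ d ∈ P, c d ≠ 0) (hi : ∀ d ∈ P, ∀ d' ∈ P, (l d).1 = (l d').1 → d = d') :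
    Function.Injective h ∧ ∃ (D : ℤ) (bq : Module.Basis (T' × ({s : ℤ // 0 ≤ s ∧ s < D} × Z)) ℂ
      (V ⧸ LinearMap.range h)), ∀ t s z,
        bq (t, (s, z)) = (LinearMap.range h).mkQ (bs ((s.1, t), z)) := by
  classical
  obtain ⟨d1, hd1, hm1⟩ := exists_max_image P (fun d => (l d).1) hP
  obtain ⟨d0, hd0, hm0⟩ := exists_min_image P (fun d => (l d).1) hP
  have h1 : ∀ d ∈ P, d ≠ d1 → (l d).1 < (l d1).1 := fun d hd hne =>
    lt_of_le_of_ne (hm1 d hd) (fun e => hne (hi d hd d1 hd1 e))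
  have h0 : ∀ d ∈ P, d ≠ d0 → (l d0).1 < (l d).1 := fun d hd hne =>
    lt_of_le_of_ne (hm0 d hd) (fun e => hne (hi d hd d0 hd0 e.symm))
  have e1 := extreme bs h P c l hh (AddMonoidHom.fst ℤ T') d1 hd1 (hc d1 hd1) h1
  have e0 := extreme bs h P c l hh (-AddMonoidHom.fst ℤ T') d0 hd0 (hc d0 hd0)
    (fun d hd hne => by simpa using h0 d hd hne)
  refine ⟨(injective_iff_map_eq_zero h).2 (fun v hv => ?_), (l d1).1 - (l d0).1, ?_⟩
  · by_contra hne
    obtain ⟨x, _, _, hx⟩ := e1 v hne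
    simp [hv] at hx
  obtain ⟨D, hD⟩ : ∃ D, D = (l d1).1 - (l d0).1 := ⟨_, rfl⟩
  rw [← hD]
  obtain ⟨f, hf⟩ : ∃ f : T' × ({s : ℤ // 0 ≤ s ∧ s < D} × Z) → (ℤ × T') × Z,
    f = fun x => ((x.2.1.1, x.1), x.2.2) := ⟨_, rfl⟩
  have hfi : Function.Injective f := by
    rintro ⟨t, ⟨s, hs⟩, z⟩ ⟨t', ⟨s', hs'⟩, z'⟩ e
    simp only [hf, Prod.mk.injEq] at e
    obtain ⟨⟨rfl, rfl⟩, rfl⟩ := e
    rfl
  have hli : LinearIndependent ℂ ((LinearMap.range h).mkQ ∘ (bs ∘ f)) := by
    refine (bs.linearIndependent.comp f hfi).map ?_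
    rw [Submodule.ker_mkQ, Submodule.disjoint_def]
    rintro _ hx ⟨v, rfl⟩
    by_contra hne
    have hv : v ≠ 0 := fun e => hne (by rw [e, map_zero])
    rw [Set.range_comp, Module.Basis.mem_span_image] at hx
    obtain ⟨x, hx1, _, hx2⟩ := e1 v hv
    obtain ⟨y, _, hy1, hy2⟩ := e0 v hv
    obtain ⟨a, ha⟩ := hx (Finsupp.mem_support_iff.2 hx2)
    obtain ⟨b, hb⟩ := hx (Finsupp.mem_support_iff.2 hy2)
    have h2 := hy1 x hx1
    have h3 := congrArg (fun p : (ℤ × T') × Z => p.1.1) ha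
    have h4 := congrArg (fun p : (ℤ × T') × Z => p.1.1) hb
    have h5 := a.2.1.2.2
    have h6 := b.2.1.2.1
    simp only [hf, Prod.fst_add, AddMonoidHom.neg_apply, AddMonoidHom.coe_fst] at h2 h3 h4
    omega
  obtain ⟨N, hN⟩ : ∃ N : Submodule ℂ V, N = (Submodule.span ℂ
    (Set.range ((LinearMap.range h).mkQ ∘ (bs ∘ f)))).comap (LinearMap.range h).mkQ := ⟨_, rfl⟩
  have hN1 : LinearMap.range h ≤ N := by
    intro v hv
    rw [hN, Submodule.mem_comap, Submodule.mkQ_apply, (Submodule.Quotient.mk_eq_zero _).2 hv]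
    exact Submodule.zero_mem _
  have hup : ∀ n : ℕ, ∀ (t : ℤ × T') (z : Z), 0 ≤ t.1 → t.1 < n → bs (t, z) ∈ N := by
    intro n
    induction n with
    | zero => intro t z h2 h3; omega
    | succ n ih =>
      intro t z h2 h3
      by_cases h4 : t.1 < D
      · rw [hN, Submodule.mem_comap]
        exact Submodule.subset_span ⟨(t.2, (⟨t.1, h2, h4⟩, z)), by simp [hf]⟩
      · refine reduce bs h P c l hh d1 hd1 (hc d1 hd1) N hN1 t z (fun d hd hne => ih _ z ?_ ?_)
        · have := hm0 d hd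
          simp only [Prod.fst_add, Prod.fst_sub]
          omega
        · have := h1 d hd hne
          simp only [Prod.fst_add, Prod.fst_sub]
          omega
  have hall : ∀ n : ℕ, ∀ (t : ℤ × T') (z : Z), -(n : ℤ) ≤ t.1 → bs (t, z) ∈ N := by
    intro n
    induction n with
    | zero => intro t z h2; exact hup (t.1.toNat + 1) t z (by omega) (by omega)
    | succ n ih =>
      intro t z h2
      refine reduce bs h P c l hh d0 hd0 (hc d0 hd0) N hN1 t z (fun d hd hne => ih _ z ?_)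
      have := h0 d hd hne
      simp only [Prod.fst_add, Prod.fst_sub]
      omega
  have hsp : ⊤ ≤ Submodule.span ℂ (Set.range ((LinearMap.range h).mkQ ∘ (bs ∘ f))) := by
    have h2 : N = ⊤ := by
      rw [eq_top_iff, ← bs.span_eq, Submodule.span_le]
      rintro _ ⟨⟨t, z⟩, rfl⟩
      exact hall (-t.1).toNat t z (by omega)
    intro x _
    obtain ⟨v, rfl⟩ := (LinearMap.range h).mkQ_surjective x
    have h3 : v ∈ N := h2 ▸ Submodule.mem_top
    rwa [hN, Submodule.mem_comap] at h3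
  exact ⟨Module.Basis.mk hli hsp, fun t s z => by simp [hf]⟩

end Lau

/-- A weight that separates finitely many vectors. -/
lemma exists_weight {n : ℕ} (F : Finset (Fin n → ℤ)) (hF : ∀ δ ∈ F, δ ≠ 0) :
    ∃ N : ℤ, ∀ δ ∈ F, ∑ i : Fin n, δ i * N ^ (i : ℕ) ≠ 0 := by
  classical
  obtain ⟨p, hp⟩ : ∃ p : (Fin n → ℤ) → Polynomial ℤ,
    p = fun δ => ∑ i : Fin n, Polynomial.monomial (i : ℕ) (δ i) := ⟨_, rfl⟩
  have h1 : ∀ δ ∈ F, p δ ≠ 0 := by
    intro δ hδ e
    refine hF δ hδ (funext (fun i => ?_))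
    have := congrArg (fun q => Polynomial.coeff q (i : ℕ)) e
    simpa [hp, Polynomial.coeff_monomial, Fin.val_inj] using this
  have h2 : (∏ δ ∈ F, p δ) ≠ 0 := prod_ne_zero_iff.2 h1
  obtain ⟨N, hN⟩ := Infinite.exists_notMem_finset (∏ δ ∈ F, p δ).roots.toFinset
  refine ⟨N, fun δ hδ e => hN ?_⟩
  rw [Multiset.mem_toFinset, Polynomial.mem_roots h2, Polynomial.IsRoot, Polynomial.eval_prod]
  refine prod_eq_zero hδ ?_
  simpa [hp, Polynomial.eval_finsetSum] using e

/-- The change of coordinates. -/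
def chg {n : ℕ} (N : ℤ) : (Fin (n + 1) → ℤ) ≃+ ℤ × (Fin n → ℤ) where
  toFun t := (∑ i : Fin (n + 1), t i * N ^ (i : ℕ), fun i => t i.succ)
  invFun x := Fin.cons (x.1 - ∑ i : Fin n, x.2 i * N ^ ((i : ℕ) + 1)) x.2
  left_inv t := by
    funext i
    refine Fin.cases ?_ (fun i => ?_) i
    · simp [Fin.sum_univ_succ]
    · simp
  right_inv x := by
    refine Prod.ext ?_ ?_
    · simp [Fin.sum_univ_succ]
    · funext i
      simp
  map_add' a b := by
    refine Prod.ext ?_ ?_
    · simp [add_mul, sum_add_distrib]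
    · funext i
      simp

lemma act_aeval {S V T Z σ : Type} [CommRing S] [Algebra ℂ S] [AddCommGroup V] [Module ℂ V]
    [AddCommGroup T] [Fintype σ] (act : S →ₐ[ℂ] Module.End ℂ V) (ρ : T → S) (bs : T × Z → V)
    (hρ : ∀ lam t z, act (ρ lam) (bs (t, z)) = bs (t + lam, z)) (lam : σ → T)
    (Φ : MvPolynomial σ ℂ) (t : T) (z : Z) :
    act (MvPolynomial.aeval (fun m => ρ (lam m)) Φ) (bs (t, z)) =
      ∑ d ∈ Φ.support, Φ.coeff d • bs (t + ∑ m, d m • lam m, z) := by
  classical
  have h1 : ∀ (a : T) (n : ℕ) (t : T), act (ρ a ^ n) (bs (t, z)) = bs (t + n • a, z) := by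
    intro a n
    induction n with
    | zero => intro t; simp
    | succ n ih =>
      intro t
      rw [pow_succ, map_mul, Module.End.mul_apply, hρ, ih, succ_nsmul', add_assoc]
  have h2 : ∀ (d : σ →₀ ℕ) (s : Finset σ) (t : T),
      act (∏ m ∈ s, ρ (lam m) ^ d m) (bs (t, z)) = bs (t + ∑ m ∈ s, d m • lam m, z) := by
    intro d s
    induction s using Finset.induction_on with
    | empty => intro t; simp
    | insert a s ha ih =>
      intro t
      rw [prod_insert ha, sum_insert ha, mul_comm, map_mul, Module.End.mul_apply, h1, ih,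
        add_assoc]
  rw [MvPolynomial.aeval_def, MvPolynomial.eval₂_eq', map_sum, LinearMap.sum_apply]
  refine sum_congr rfl (fun d _ => ?_)
  rw [map_mul, AlgHom.commutes, Module.End.mul_apply, h2, Module.algebraMap_end_apply]

end NNAux

open NNAux in
theorem nn : NNStmt := by
  intro ι S _ _ _ _ g A k j
  classical
  induction j with
  | zero =>
    intro V Z _ _ act ρ bs _ _ m hm e he _
    refine ⟨0, fun _ _ => rfl, ?_⟩
    rw [kdV_zero]
    funext J
    refine he J (fun h => ?_)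
    have := card_le_card h.1
    omega
  | succ j ih =>
    intro V Z _ _ act ρ bs hρ hΦ m hm
    by_cases hjk : j + 1 ≤ k
    · intro e he _
      refine ⟨0, fun _ _ => rfl, ?_⟩
      rw [kdV_zero]
      funext J
      refine he J (fun h => ?_)
      have := card_le_card h.1
      omega
    have hk : k + 1 ≤ j + 1 := by omega
    obtain ⟨Φ, hΦ0, hΦ1⟩ := hΦ (fun m => Pi.single (Fin.castLE hk m) 1)
    obtain ⟨v, hv⟩ : ∃ v : (Fin (k + 1) →₀ ℕ) → Fin (j + 1) → ℤ,
      v = fun d => ∑ m, d m • (Pi.single (Fin.castLE hk m) 1 : Fin (j + 1) → ℤ) := ⟨_, rfl⟩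
    have hvi : Function.Injective v := by
      intro d d' e
      ext m
      have := congrFun e (Fin.castLE hk m)
      simpa [hv, Pi.single_apply] using this
    obtain ⟨N, hN⟩ := exists_weight
      (((Φ.support ×ˢ Φ.support).filter (fun p => p.1 ≠ p.2)).image (fun p => v p.1 - v p.2)) (by
        intro δ hδ
        obtain ⟨p, hp, rfl⟩ := mem_image.1 hδ
        exact sub_ne_zero.2 (hvi.ne (mem_filter.1 hp).2))
    obtain ⟨h, hh⟩ : ∃ h : S,
      h = MvPolynomial.aeval (fun m => ρ (Pi.single (Fin.castLE hk m) 1)) Φ := ⟨_, rfl⟩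
    rw [← hh] at hΦ1
    obtain ⟨hinj, D, bq, hbq⟩ := laurent
      (bs.reindex (Equiv.prodCongr (chg (n := j) N).toEquiv (Equiv.refl Z))) (act h) Φ.support
      (fun d => Φ.coeff d) (fun d => chg N (v d)) (by
        intro t z
        simp only [Module.Basis.reindex_apply, Equiv.prodCongr_symm, Equiv.prodCongr_apply,
          Prod.map_apply, Equiv.refl_symm, Equiv.refl_apply]
        rw [hh, act_aeval act ρ bs hρ]
        refine sum_congr rfl (fun d _ => ?_)
        simp [hv])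
      (MvPolynomial.support_nonempty.2 hΦ0) (fun d hd => MvPolynomial.mem_support_iff.1 hd) (by
        intro d hd d' hd' e
        by_contra hne
        refine hN (v d - v d') (mem_image.2 ⟨(d, d'), mem_filter.2 ⟨mem_product.2 ⟨hd, hd'⟩, hne⟩,
          rfl⟩) ?_
        simp only [Pi.sub_apply, sub_mul, sum_sub_distrib]
        exact sub_eq_zero.2 e)
    refine les act g A h hΦ1 hinj m (ih _ _ (actQ act h) (fun t => ρ ((chg N).symm (0, t))) bq
      ?_ (fun lam => hΦ (fun m => (chg N).symm (0, lam m))) (m + 1) (by omega))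
    rintro lam t ⟨s, z⟩
    rw [hbq, hbq, actQ_mk]
    simp only [Module.Basis.reindex_apply, Equiv.prodCongr_symm, Equiv.prodCongr_apply,
      Prod.map_apply, Equiv.refl_symm, Equiv.refl_apply]
    rw [hρ]
    congr 3
    exact ((chg N).symm.map_add (s.1, t) (0, lam)).symm.trans (by simp)

end Pool.Agent.MP_5d9b3c_ag.H48R
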