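import Pool.Agent.MP_5d9b3c_ag.H48R.Spec
import Pool.Agent.MP_5d9b3c_ag.H48N.BasicK

/-!
Extraction of the leading term.
-/

namespace Pool.Agent.MP_5d9b3c_ag.H48R

open Finset Pool.Agent.MP_5d9b3c_ag.H48N

namespace RedAux

variable {X ι : Type}

/-- The part of total degree below `n`. -/
def Lo (Y : Set X) (N : X → ℤ) (m : ℕ) (n : ℤ) : Finset ι → Set X :=
  fun J => {v | v ∈ Y ∧ N v + ((m * #J : ℕ) : ℤ) < n}

/-- The layer of total degree `n`. -/
def La (Y : Set X) (N : X → ℤ) (m : ℕ) (n : ℤ) : Finset ι → Set X :=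
  fun J => {v | v ∈ Y ∧ N v + ((m * #J : ℕ) : ℤ) = n}

end RedAux

open RedAux in
theorem redR : RedRStmt := by
  intro X ι _ _ D F Y deg m hD hm hN hF hE u0 hu0 e d1 i1 h1
  choose! N hN using hN
  have hm' : (0 : ℚ) < m := by exact_mod_cast hm
  have hF1 : ∀ i, ∀ u ∈ Y,
      F i (Finsupp.single u 1) ∈ Su {v | v ∈ Y ∧ N v = N u + m} := fun i u hu =>
    Su_mono (fun v hv => ⟨hv.1, by
      have : (N v : ℚ) = N u + m := by rw [← hN v hv.1, ← hN u hu, hv.2]; ring
      exact_mod_cast this⟩) (hF i u hu).1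
  have hF2 : ∀ i, ∀ u ∈ Y, D i (Finsupp.single u 1) - F i (Finsupp.single u 1) ∈
      Su {v | v ∈ Y ∧ N v < N u + m} := fun i u hu =>
    Su_mono (fun v hv => ⟨hv.1, by
      have : (N v : ℚ) < N u + m := by
        rw [← hN v hv.1, ← hN u hu]
        have := mul_lt_mul_of_pos_left hv.2 hm'
        linarith
      exact_mod_cast this⟩) (hF i u hu).2
  have hc : ∀ (J : Finset ι) i, i ∉ J → m * #(insert i J) = m * #J + m := fun J i hi => by
    rw [card_insert_of_notMem hi, mul_add, mul_one]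
  have sLa : ∀ n, Stab F (La Y N m n) := fun n J i hi u hu =>
    Su_mono (fun v hv => ⟨hv.1, by have := hu.2; have := hv.2; have := hc J i hi; omega⟩)
      (hF1 i u hu.1)
  have sCo : ∀ n, Stab F (fun J => Y \ La Y N m n J) := fun n J i hi u hu =>
    Su_mono (fun v hv => ⟨hv.1, fun h => hu.2 ⟨hu.1, by
      have := h.2; have := hv.2; have := hc J i hi; omega⟩⟩) (hF1 i u hu.1)
  have dLa : ∀ n (J : Finset ι), ∀ i ∉ J, ∀ u ∈ La Y N m n (insert i J),
      D i (Finsupp.single u 1) - F i (Finsupp.single u 1) ∈ Su (Lo Y N m n J) :=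
    fun n J i hi u hu => Su_mono (fun v hv => ⟨hv.1, by
      have := hu.2; have := hv.2; have := hc J i hi; omega⟩) (hF2 i u hu.1)
  have sLo : ∀ n, Stab D (Lo Y N m n) := fun n J i hi u hu => by
    have h1 : F i (Finsupp.single u 1) ∈ Su (Lo Y N m n J) :=
      Su_mono (fun v hv => ⟨hv.1, by
        have := hu.2; have := hv.2; have := hc J i hi; omega⟩) (hF1 i u hu.1)
    have h2 : D i (Finsupp.single u 1) - F i (Finsupp.single u 1) ∈ Su (Lo Y N m n J) :=
      Su_mono (fun v hv => ⟨hv.1, by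
        have := hu.2; have := hv.2; have := hc J i hi; omega⟩) (hF2 i u hu.1)
    simpa using add_mem h1 h2
  have sY : Stab D (fun _ : Finset ι => Y) := Stab.const (fun i u hu => by
    have h1 : F i (Finsupp.single u 1) ∈ Su Y := Su_mono (fun v hv => hv.1) (hF1 i u hu)
    have h2 : D i (Finsupp.single u 1) - F i (Finsupp.single u 1) ∈ Su Y :=
      Su_mono (fun v hv => hv.1) (hF2 i u hu)
    simpa using add_mem h1 h2)
  have up : ∀ n (J : Finset ι), Lo Y N m (n + 1) J ⊆ La Y N m n J ∪ Lo Y N m n J := by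
    intro n J u hu
    rcases lt_or_eq_of_le (Int.lt_add_one_iff.1 hu.2) with h | h
    · exact Or.inr ⟨hu.1, h⟩
    · exact Or.inl ⟨hu.1, h⟩
  have dis : ∀ n (J : Finset ι), ∀ u ∈ La Y N m n J, u ∉ Lo Y N m n J :=
    fun n J u hu h => h.2.ne hu.2
  have eLa : ∀ n, Ex F 1 (La Y N m n) (emp X ι) := fun n =>
    Ex.inter (W := fun _ => Y) (Z := fun J => Y \ La Y N m n J)
      (fun e d1 i1 i2 => by
        obtain ⟨e1, d2, i3, -, i4⟩ := i1.split (Y := La Y N m n)
          (Z := fun J => Y \ La Y N m n J) d1 (fun J u hu => by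
            by_cases h : u ∈ La Y N m n J
            · exact Or.inl h
            · exact Or.inr ⟨hu, h⟩)
        have i5 : In (fun J => Y \ La Y N m n J) (kd F e1) := by
          simpa [kd_sub] using i2.sub (i4.kd (sCo n))
        obtain ⟨e2, d3, i6, i7⟩ := hE e1 d2 (i3.mono (fun J u hu => hu.1))
          (((i3.kd (sLa n)).inter i5).mono (fun J u hu => hu.2.2 hu.1))
        rw [in_emp, sub_eq_zero] at i7
        exact ⟨e2, d3, i6, by rwa [← i7]⟩)
      (sLa n) (sCo n) (fun J u hu => hu.2.2 hu.1) (fun J u hu => hu.elim)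
      (fun J u hu => by
        by_cases h : u ∈ La Y N m n J
        · exact Or.inl h
        · exact Or.inr ⟨hu, h⟩) (fun J u hu => hu.1)
  have eLo : ∀ n : ℤ, Ex D 1 (fun _ => Y) (Lo Y N m n) := fun n => by
    have := Ex.chain (k := 1) (Y := fun _ => Y) hD (fun k : ℕ => Lo Y N m (n + k))
      (fun k => by
        have h3 := (eLa (n + k)).chg (sLo _) (sLa _) (up _)
          (fun J u hu => ⟨hu.1, by have := hu.2; omega⟩) (dis _) (dLa _)
        simpa only [Nat.cast_add, Nat.cast_one, add_assoc] using h3)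
      (fun k J v hv => ⟨hv.1, by have := hv.2; push_cast at this ⊢; omega⟩)
      (fun k J v hv => hv.1)
      (fun J u hu => ⟨(N u + ((m * #J : ℕ) : ℤ) + 1 - n).toNat, hu, by omega⟩)
    simpa only [Nat.cast_zero, add_zero] using this
  have h2 : Finsupp.single u0 (1 : ℂ) ∈ Su (La Y N m (N u0) (∅ : Finset ι)) :=
    single_mem_Su (show u0 ∈ La Y N m (N u0) (∅ : Finset ι) from ⟨hu0, by simp⟩) 1
  have h1' : kd D e ∅ - Finsupp.single u0 1 ∈ Su (Lo Y N m (N u0) (∅ : Finset ι)) := by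
    refine Su_mono (fun v hv => ⟨hv.1, ?_⟩)
      (Su_inter (sub_mem (i1.kd sY ∅) (single_mem_Su hu0 1)) h1)
    have : (N v : ℚ) < N u0 := by
      rw [← hN v hv.1, ← hN u0 hu0]
      exact mul_lt_mul_of_pos_left hv.2 hm'
    simpa using this
  obtain ⟨e2, d2, -, i2⟩ := eLo (N u0 + 1) e d1 i1 (d1.kd.in_zero (by
    have h3 : Finsupp.single u0 (1 : ℂ) ∈ Su (Lo Y N m (N u0 + 1) (∅ : Finset ι)) :=
      single_mem_Su (show u0 ∈ Lo Y N m (N u0 + 1) (∅ : Finset ι) from ⟨hu0, by simp⟩) 1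
    have h4 : kd D e ∅ - Finsupp.single u0 1 ∈ Su (Lo Y N m (N u0 + 1) (∅ : Finset ι)) :=
      Su_mono (fun v hv => ⟨hv.1, by have := hv.2; omega⟩) h1'
    simpa using add_mem h4 h3))
  obtain ⟨e1, d3, i3, -, i4⟩ := i2.split (d1.sub d2.kd) (up _)
  refine ⟨e1, d3, i3.mono (fun J u hu => hu.1), ?_⟩
  have h4 := i4.kd (sLo _) ∅
  rw [kd_sub, kd_sub_kd hD] at h4
  have h5 := i3.kd_sub (dLa _) ∅
  have h6 : kd F e1 ∅ - Finsupp.single u0 1 ∈ Su (Lo Y N m (N u0) (∅ : Finset ι)) := by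
    have := sub_mem (sub_mem h1' h4) h5
    simpa using this
  have h7 := sub_mem (i3.kd (sLa _) ∅) h2
  exact sub_eq_zero.1 (Su_empty (Su_mono (fun u hu => dis _ _ u hu.1 hu.2) (Su_inter h7 h6)))

end Pool.Agent.MP_5d9b3c_ag.H48R
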