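import Pool.Agent.MP_5d9b3c_ag.H10N.Spec

/-!
All nondegenerate polynomials: the relative version of the differential side.
Definitions and the statements of the steps.
-/

namespace Pool.Agent.MP_5d9b3c_ag.H48R

open Finset Pool.Agent.MP_5d9b3c_ag.H22 Pool.Agent.MP_5d9b3c_ag.H48N

section Mod

variable {ι V : Type} [Fintype ι] [LinearOrder ι] [AddCommGroup V] [Module ℂ V]

/-- The Koszul differential on a vector space. -/
noncomputable def kdV (D : ι → Module.End ℂ V) (e : Finset ι → V) : Finset ι → V :=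
  fun J => ∑ i ∈ Jᶜ, sgn i J • D i (e (insert i J))

/-- Exactness in degree `m` of the Koszul complex of the operators with index in `A`. -/
def KEx (D : ι → Module.End ℂ V) (A : Finset ι) (m : ℕ) : Prop :=
  ∀ e : Finset ι → V, (∀ J, ¬ (J ⊆ A ∧ #J = m) → e J = 0) → kdV D e = 0 →
    ∃ e' : Finset ι → V, (∀ J, ¬ (J ⊆ A ∧ #J = m + 1) → e' J = 0) ∧ e = kdV D e'

end Mod

section Ops

variable {ι ν κ : Type} [Fintype ι] [LinearOrder ι] [Fintype ν] [LinearOrder ν] [Fintype κ]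
  [DecidableEq κ]

/-- The fibre part of the vector. -/
def bz (B : κ → Pt ν) (em : ι ↪ ν) (b : κ) : ι → ℚ := fun i => bx B b (em i)

/-- The fibre part of the position relative to the apex. -/
def pz (em : ι ↪ ν) (q : Vq ν) (y : ι → ℚ) (u : Pt ν) : ι → ℚ :=
  fun i => hat q u (some (em i)) - y i

/-- The twisted operators in the fibre directions. -/
noncomputable def Dz (B : κ → Pt ν) (c : κ → ℂ) (q : Vq ν) (em : ι ↪ ν) (i : ι) : Op (Pt ν) :=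
  Dx B c q (em i)

/-- Multiplication by the logarithmic derivatives in the fibre directions. -/
noncomputable def Fz (B : κ → Pt ν) (c : κ → ℂ) (T : Finset κ) (em : ι ↪ ν) (i : ι) : Op (Pt ν) :=
  FT B c T (em i)

/-- The lattice points over the shifted cone. -/
def CZ (B : κ → Pt ν) (em : ι ↪ ν) (q : Vq ν) (T : Finset κ) (y : ι → ℚ) : Set (Pt ν) :=
  {u | Cone (bz B em) T (pz em q y u)}

/-- The lattice points over the shifted orthant. -/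
def Cp (em : ι ↪ ν) (q : Vq ν) (y : ι → ℚ) : Set (Pt ν) := {u | ∀ i, 0 ≤ pz em q y u i}

/-- The logarithmic derivatives in all directions have no common zero in the torus. -/
def NDo (B : κ → Pt ν) (c : κ → ℂ) (T : Finset κ) : Prop :=
  ∀ x : Option ν → ℂ, (∀ o, x o ≠ 0) →
    ∃ o, ∑ b ∈ T, c b * (B b o : ℂ) * ∏ o', x o' ^ B b o' ≠ 0

/-- Nondegeneracy along the faces cut out by fibre weights. -/
def FaceO (B : κ → Pt ν) (c : κ → ℂ) (em : ι ↪ ν) (T : Finset κ) : Prop :=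
  ∀ n : ι → ℚ, (∀ b ∈ T, 0 ≤ n ⬝ᵥ bz B em b) →
    (T.filter (fun b => n ⬝ᵥ bz B em b = 0)).Nonempty →
    NDo B c (T.filter (fun b => n ⬝ᵥ bz B em b = 0))

/-- Homogeneity in the fibre directions. -/
def Hom (B : κ → Pt ν) (em : ι ↪ ν) (T : Finset κ) : Prop :=
  ∃ d : ι → ℚ, ∀ b ∈ T, d ⬝ᵥ bz B em b = 1

/-- Only the fibre directions in `A` occur. -/
def Sup (B : κ → Pt ν) (em : ι ↪ ν) (A : Finset ι) (T : Finset κ) : Prop :=
  ∀ b ∈ T, ∀ i ∉ A, B b (some (em i)) = 0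

/-- The logarithmic derivative in the group algebra. -/
noncomputable def Fr (B : κ → Pt ν) (c : κ → ℂ) (T : Finset κ) (o : Option ν) : RR (Option ν) :=
  ∑ b ∈ T, (c b * (B b o : ℂ)) • U (B b)

/-- The group generated by the vectors and the base directions. -/
def Lat0 (B : κ → Pt ν) (em : ι ↪ ν) (T : Finset κ) : AddSubgroup (Pt ν) :=
  AddSubgroup.closure (B '' (T : Set κ) ∪ {u | ∀ i, u (some (em i)) = 0})

/-- The data of a fan in the fibre directions. -/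
structure RFan (B : κ → Pt ν) (c : κ → ℂ) (em : ι ↪ ν) (vl : κ → ℚ) (W : Finset (ι → ℚ)) :
    Prop where
  nonneg : ∀ b i, 0 ≤ B b (some (em i))
  feas : ∀ ψ ∈ W, Feas (bz B em) vl ψ
  cover : ∀ p : ι → ℚ, (∀ i, 0 ≤ p i) → ∃ ψ ∈ W, Cone (bz B em) (Tt (bz B em) vl ψ) p
  hom : ∀ ψ ∈ W, Hom B em (Tt (bz B em) vl ψ)
  nd : ∀ ψ, Feas (bz B em) vl ψ → (Tt (bz B em) vl ψ).Nonempty → NDo B c (Tt (bz B em) vl ψ)

/-- The point and the vector lie in a common cone of the fan. -/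
def Sm (B : κ → Pt ν) (em : ι ↪ ν) (vl : κ → ℚ) (W : Finset (ι → ℚ)) (p : ι → ℚ) (b : κ) : Prop :=
  ∃ ψ ∈ W, (∀ ψ' ∈ W, ψ ⬝ᵥ p ≤ ψ' ⬝ᵥ p) ∧ ψ ⬝ᵥ bz B em b = vl b

open Classical in
/-- The operators of the face ring. -/
noncomputable def Gtr (B : κ → Pt ν) (c : κ → ℂ) (em : ι ↪ ν) (vl : κ → ℚ) (W : Finset (ι → ℚ))
    (q : Vq ν) (y : ι → ℚ) (i : ι) : Op (Pt ν) :=
  op B 0 (fun u b => if Sm B em vl W (pz em q y u) b then c b * (B b (some (em i)) : ℂ) else 0)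

/-- The forms without poles along the coordinates in `S`. -/
def NLog (em : ι ↪ ν) (q : Vq ν) (y : ι → ℚ) (S : Finset ι) : Finset ι → Set (Pt ν) :=
  fun J => {u | u ∈ Cp em q y ∧ ∀ k ∈ S \ J, 0 < pz em q y u k}

/-- The relative relations. -/
noncomputable def N1 (B : κ → Pt ν) (c : κ → ℂ) (q : Vq ν) (em : ι ↪ ν) (Y : Set (Pt ν)) :
    Submodule ℂ (Pt ν →₀ ℂ) :=
  (⨆ i, LinearMap.range (Dz B c q em i)) ⊔ Su Y

/-- Extension of a fibre weight by zero. -/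
noncomputable def ext (em : ι ↪ ν) (w : ι → ℚ) : ν → ℚ := Function.extend em w 0

/-- The exponents of the twisted polynomial; the bottom element is the new variable. -/
def BR (a : κ → ν →₀ ℕ) (K : Finset ν) : κ ⊕ {k // k ∉ K} → Pt (WithBot ν) :=
  Sum.elim (fun j o => o.elim 1 (WithBot.recBotCoe 0 (fun i => (a j i : ℤ))))
    (fun k => Pi.single (some ⊥) 1 + Pi.single (some (k.1 : WithBot ν)) 1)

/-- The fibre directions. -/
def emK (K : Finset ν) : {k // k ∉ K} ↪ WithBot ν :=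
  ⟨fun k => (k.1 : WithBot ν), fun _ _ h => Subtype.ext (WithBot.coe_injective h)⟩

/-- The shift. -/
def qR (ν : Type) (l : ℚ) : Vq (WithBot ν) := qq l (WithBot.recBotCoe 0 (fun _ => 1))

/-- The values that define the fan. -/
def vR (κ α : Type) (η : ℚ) : κ ⊕ α → ℚ := Sum.elim (fun _ => 1) (fun _ => η)

end Ops

/-- The monomials are algebraic over the base coordinates and the logarithmic derivatives. -/
def AlgStmt : Prop :=
  ∀ (ι ν κ : Type) [Fintype ι] [LinearOrder ι] [Fintype ν] [LinearOrder ν] [Fintype κ]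
    [DecidableEq κ] (B : κ → Pt ν) (c : κ → ℂ) (em : ι ↪ ν) (T : Finset κ),
    FaceO B c em T → Hom B em T →
    ∀ (L : Type) [Field L] [Algebra ℂ L] (x : Option ν → L) (δ : Derivation ℂ L L),
      (∀ o, x o ≠ 0) → (∀ o, (∀ i, o ≠ some (em i)) → δ (x o) = 0) →
      (∀ o, δ (∑ b ∈ T, algebraMap ℂ L (c b) * (B b o : L) * ∏ o', x o' ^ B b o') = 0) →
      ∀ b ∈ T, δ (∏ o', x o' ^ B b o') = 0

/-- The relative critical locus has dimension at most the dimension of the base. -/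
def DepStmt : Prop :=
  ∀ (ι ν κ : Type) [Fintype ι] [LinearOrder ι] [Fintype ν] [LinearOrder ν] [Fintype κ]
    [DecidableEq κ] (B : κ → Pt ν) (c : κ → ℂ) (em : ι ↪ ν) (A : Finset ι) (T : Finset κ),
    FaceO B c em T → Hom B em T → Sup B em A T →
    ∀ k : ℕ, k + Fintype.card ι = Fintype.card ν + 1 →
    ∀ lam : Fin (k + 1) → Pt ν, (∀ m, lam m ∈ Lat0 B em T) →
      ∃ Φ : MvPolynomial (Fin (k + 1)) ℂ, Φ ≠ 0 ∧
        MvPolynomial.aeval (fun m => U (lam m)) Φ ∈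
          Ideal.span ((fun i => Fr B c T (some (em i))) '' (A : Set ι))

/-- Noether normalisation on a torus, and the depth of the Koszul complex. -/
def NNStmt : Prop :=
  ∀ (ι S : Type) [Fintype ι] [LinearOrder ι] [CommRing S] [Algebra ℂ S] (g : ι → S) (A : Finset ι)
    (k j : ℕ) (V Z : Type) [AddCommGroup V] [Module ℂ V] (act : S →ₐ[ℂ] Module.End ℂ V)
    (ρ : (Fin j → ℤ) → S) (bs : Module.Basis ((Fin j → ℤ) × Z) ℂ V),
    (∀ lam t z, act (ρ lam) (bs (t, z)) = bs (t + lam, z)) →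
    (∀ lam : Fin (k + 1) → Fin j → ℤ, ∃ Φ : MvPolynomial (Fin (k + 1)) ℂ, Φ ≠ 0 ∧
      MvPolynomial.aeval (fun m => ρ (lam m)) Φ ∈ Ideal.span (g '' (A : Set ι))) →
    ∀ m : ℕ, #A + k < m + j → KEx (fun i => act (g i)) A m

/-- The torus part of the relative complex. -/
def TorStmt : Prop :=
  ∀ (ι ν κ : Type) [Fintype ι] [LinearOrder ι] [Fintype ν] [LinearOrder ν] [Fintype κ]
    [DecidableEq κ] (B : κ → Pt ν) (c : κ → ℂ) (em : ι ↪ ν) (A : Finset ι) (T : Finset κ),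
    FaceO B c em T → Hom B em T → Sup B em A T →
    ∀ Y : Set (Pt ν), (∀ u, ∀ b ∈ T, u + B b ∈ Y ↔ u ∈ Y) →
    ∀ m : ℕ, #A < m + rk (bz B em) T → Ex (Fz B c T em) m (res A Y) (emp _ _)

/-- The relative complexes of shifted cones. -/
def CMRStmt : Prop :=
  ∀ (ι ν κ : Type) [Fintype ι] [LinearOrder ι] [Fintype ν] [LinearOrder ν] [Fintype κ]
    [DecidableEq κ] (B : κ → Pt ν) (c : κ → ℂ) (em : ι ↪ ν) (A : Finset ι) (T : Finset κ),
    FaceO B c em T → Hom B em T → Sup B em A T → ∀ (q : Vq ν) (y : ι → ℚ) (m : ℕ),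
    #A < m + rk (bz B em) T → Ex (Fz B c T em) m (res A (CZ B em q T y)) (emp _ _)

/-- The face ring of a coordinate face. -/
def ShellRStmt : Prop :=
  ∀ (ι ν κ : Type) [Fintype ι] [LinearOrder ι] [Fintype ν] [LinearOrder ν] [Fintype κ]
    [DecidableEq κ] (B : κ → Pt ν) (c : κ → ℂ) (em : ι ↪ ν) (vl : κ → ℚ) (W : Finset (ι → ℚ)),
    RFan B c em vl W → ∀ (q : Vq ν) (y : ι → ℚ) (A : Finset ι) (m : ℕ), 1 ≤ m →
    Ex (Gtr B c em vl W q y) m (res A (Cp em q y))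
      (res A {u | u ∈ Cp em q y ∧ ∃ i ∉ A, 0 < pz em q y u i})

/-- From forms with logarithmic poles to forms without poles. -/
def LinkRStmt : Prop :=
  ∀ (ι ν κ : Type) [Fintype ι] [LinearOrder ι] [Fintype ν] [LinearOrder ν] [Fintype κ]
    [DecidableEq κ] (B : κ → Pt ν) (c : κ → ℂ) (em : ι ↪ ν) (vl : κ → ℚ) (W : Finset (ι → ℚ)),
    RFan B c em vl W → ∀ (q : Vq ν) (y : ι → ℚ) (S : Finset ι),
    Ex (Gtr B c em vl W q y) 1 (fun _ => Cp em q y) (NLog em q y S)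

/-- Extraction of the leading term. -/
def RedRStmt : Prop :=
  ∀ (X ι : Type) [Fintype ι] [LinearOrder ι] (D F : ι → Op X) (Y : Set X) (deg : X → ℚ) (m : ℕ),
    Comm D → 0 < m → (∀ u ∈ Y, ∃ z : ℤ, m * deg u = z) →
    (∀ i, ∀ u ∈ Y, F i (Finsupp.single u 1) ∈ Su {v | v ∈ Y ∧ deg v = deg u + 1} ∧
      D i (Finsupp.single u 1) - F i (Finsupp.single u 1) ∈ Su {v | v ∈ Y ∧ deg v < deg u + 1}) →
    Ex F 1 (fun _ => Y) (emp _ _) → ∀ u0 ∈ Y, ∀ e, Deg 1 e → In (fun _ => Y) e →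
      kd D e ∅ - Finsupp.single u0 1 ∈ Su {v | deg v < deg u0} →
      ∃ e', Deg 1 e' ∧ In (fun _ => Y) e' ∧ kd F e' ∅ = Finsupp.single u0 1

/-- A relation gives a relation in the face ring. -/
def TopStmt : Prop :=
  ∀ (ι ν κ : Type) [Fintype ι] [LinearOrder ι] [Fintype ν] [LinearOrder ν] [Fintype κ]
    [DecidableEq κ] (B : κ → Pt ν) (c : κ → ℂ) (em : ι ↪ ν) (vl : κ → ℚ) (W : Finset (ι → ℚ)),
    RFan B c em vl W → ∀ n0 n1 : Vq ν, (∀ b, n0 ⬝ᵥ Bq B b = 1) → (∀ b, n1 ⬝ᵥ Bq B b = vl b) →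
    ∀ (q : Vq ν) (y : ι → ℚ), ∀ u0 ∈ Cp em q y, ∀ e, Deg 1 e → In (fun _ => Cp em q y) e →
    kd (Dz B c q em) e ∅ - Finsupp.single u0 1 ∈ Su {u | ∃ ψ0 ∈ W, ∀ ψ ∈ W,
      ψ0 ⬝ᵥ pz em q y u0 - n1 ⬝ᵥ hat q u0 < ψ ⬝ᵥ pz em q y u - n1 ⬝ᵥ hat q u} →
    ∃ e', Deg 1 e' ∧ In (fun _ => Cp em q y) e' ∧
      kd (Gtr B c em vl W q y) e' ∅ = Finsupp.single u0 1

/-- Reduction to the orthant. -/
def NegStmt : Prop :=
  ∀ (ι ν κ : Type) [Fintype ι] [LinearOrder ι] [Fintype ν] [LinearOrder ν] [Fintype κ]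
    [DecidableEq κ] (B : κ → Pt ν) (c : κ → ℂ) (em : ι ↪ ν), (∀ b i, 0 ≤ B b (some (em i))) →
    ∀ (q : Vq ν) (y : ι → ℚ), (∀ i, y i ≤ 0) → ∀ Y : Set (Pt ν), (∀ u ∈ Y, ∀ b, u + B b ∈ Y) →
    ∀ u0 ∈ Cp em q y, Finsupp.single u0 1 ∈ N1 B c q em Y →
    ∃ e, Deg 1 e ∧ In (fun _ => Cp em q y) e ∧
      kd (Dz B c q em) e ∅ - Finsupp.single u0 1 ∈ Su (Cp em q y ∩ Y)

/-- Projection to the closed cone of a face. -/
def ProjRStmt : Prop :=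
  ∀ (ι ν κ : Type) [Fintype ι] [LinearOrder ι] [Fintype ν] [LinearOrder ν] [Fintype κ]
    [DecidableEq κ] (B : κ → Pt ν) (c : κ → ℂ) (em : ι ↪ ν) (vl : κ → ℚ) (W : Finset (ι → ℚ)),
    RFan B c em vl W → ∀ (w : ι → ℚ) (T : Finset κ) (τ : κ → ℚ) (μ : ι → ℚ) (ρ : ℚ)
    (S : Finset ι) (q : Vq ν) (y : ι → ℚ), Feas (bz B em) vl w → T = Tt (bz B em) vl w →
    (∀ b ∈ T, vl b = 1) → (∀ b ∈ T, 0 ≤ τ b) → pz em q y 0 = ∑ b ∈ T, τ b • bz B em b →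
    (∀ k, 0 ≤ μ k) → (∀ k ∉ S, μ k = 0) → (∀ k ∈ S, pz em q y 0 k = 1) →
    (∀ b ∈ T, μ ⬝ᵥ bz B em b ≤ 1) → ρ = ∑ b ∈ T, τ b * (1 - μ ⬝ᵥ bz B em b) → ρ < 1 →
    ∀ e, Deg 1 e → In (NLog em q y S) e → kd (Gtr B c em vl W q y) e ∅ = Finsupp.single 0 1 →
    ∀ x : Option ν → ℂ, (∀ o, x o ≠ 0) →
      ∃ i, 1 - ρ ≤ μ i ∧ ∑ b ∈ T, c b * (B b (some (em i)) : ℂ) * ∏ o, x o ^ B b o ≠ 0

/-- Classes killed by a power of the level operator. -/
def KillRStmt : Prop :=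
  ∀ (ι ν κ : Type) [Fintype ι] [LinearOrder ι] [Fintype ν] [LinearOrder ν] [Fintype κ]
    [DecidableEq κ] (B : κ → Pt ν) (c : κ → ℂ) (em : ι ↪ ν) (W : Finset (ι → ℚ)) (q y : Vq ν)
    (Z : Set (Pt ν)), (∀ w ∈ W, Feas (bz B em) (lev B) w) → (∀ u ∈ Z, ∀ b, u + B b ∈ Z) →
    (∀ u ∈ Z, ∀ w ∈ W, hw (ext em w) ⬝ᵥ (hat q u - y) ≤ 0 → hw (ext em w) ⬝ᵥ hat q u = 0) →
    ∀ u ∈ Z, ∃ r : ℕ, (D0 B c q ^ r) (Finsupp.single u 1) ∈
      N1 B c q em {u | ∀ w ∈ W, 0 < hw (ext em w) ⬝ᵥ (hat q u - y)}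

/-- The consequence of the functional equation. -/
def SVRStmt : Prop :=
  ∀ (ν κ : Type) [Fintype ν] [LinearOrder ν] [Fintype κ] [DecidableEq κ] (a : κ → ν →₀ ℕ)
    (c : κ → ℂ) (b : Polynomial ℂ), BEq a c ((Polynomial.X + 1) * b) →
    ∀ (K : Finset ν) (γ : {k // k ∉ K} → ℂ) (l : ℚ) (N : Submodule ℂ (Pt (WithBot ν) →₀ ℂ)),
    (∀ i e, Dz (BR a K) (Sum.elim c γ) (qR ν l) (emK K) i e ∈ N) →
    (∀ n, ∀ e ∈ N, Dn (BR a K) (Sum.elim c γ) (qR ν l) n e ∈ N) →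
    (∀ u : Pt (WithBot ν), u none = -1 → (∀ i, 0 ≤ u (some (emK K i))) →
      Finsupp.single u 1 ∈ N) →
    Polynomial.aeval (D0 (BR a K) (Sum.elim c γ) (qR ν l) - (l : ℂ) • 1) b
      (Finsupp.single 0 1) ∈ N

/-- The fan exists. -/
def FanRStmt : Prop :=
  ∀ (ν κ : Type) [Fintype ν] [LinearOrder ν] [Fintype κ] [DecidableEq κ] (a : κ → ν →₀ ℕ)
    (c : κ → ℂ) (K : Finset ν), H10N.NDQ a c → (∃ w, InG a w ∧ ∀ k ∈ K, w k = 0) →
    ∃ (γ : {k // k ∉ K} → ℂ) (η0 : ℚ) (W0 : Finset ({k // k ∉ K} → ℚ)), 0 < η0 ∧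
      (∀ w ∈ W0, Feas (bz (BR a K) (emK K)) (lev (BR a K)) w) ∧
      (∀ p : {k // k ∉ K} → ℚ, (∀ i, 0 ≤ p i) → ∀ w', Feas (bz (BR a K) (emK K)) (lev (BR a K)) w' →
        ∃ w ∈ W0, w ⬝ᵥ p ≤ w' ⬝ᵥ p) ∧
      ∀ η : ℚ, 0 < η → η ≤ η0 →
        ∃ W, RFan (BR a K) (Sum.elim c γ) (emK K) (vR κ {k // k ∉ K} η) W

end Pool.Agent.MP_5d9b3c_ag.H48R
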