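import Pool.Agent.MP_5d9b3c_ag.H48R.Spec
import Pool.Agent.MP_5d9b3c_ag.H48N.BasicO
import Pool.Agent.MP_5d9b3c_ag.H48N.Null

/-!
The torus part of the relative complex.
-/

namespace Pool.Agent.MP_5d9b3c_ag.H48R

open Finset Pool.Agent.MP_5d9b3c_ag.H22 Pool.Agent.MP_5d9b3c_ag.H48N

namespace TorAux

/-- A group is a product of a subgroup and the set of its cosets. -/
lemma exists_equiv {G H : Type} [AddCommGroup G] [AddCommGroup H] (φ : H →+ G)
    (hφ : Function.Injective φ) :
    ∃ (Z : Type) (E : H × Z ≃ G), ∀ t lam z, E (t + lam, z) = E (t, z) + φ lam := by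
  refine ⟨G ⧸ φ.range, Equiv.ofBijective (fun x => φ x.1 + x.2.out) ⟨?_, fun g => ?_⟩, ?_⟩
  · rintro ⟨t, z⟩ ⟨t', z'⟩ h
    have h0 : φ t + z.out = φ t' + z'.out := h
    have k : ∀ (s : H) (y : G ⧸ φ.range), ((φ s + y.out : G) : G ⧸ φ.range) = y := by
      intro s y
      rw [QuotientAddGroup.mk_add, (QuotientAddGroup.eq_zero_iff (N := φ.range) (φ s)).2 ⟨s, rfl⟩,
        zero_add, QuotientAddGroup.out_eq']
    obtain rfl : z = z' := by rw [← k t z, h0, k]
    rw [hφ (add_right_cancel h0)]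
  · obtain ⟨t, ht⟩ : -(g : G ⧸ φ.range).out + g ∈ φ.range :=
      QuotientAddGroup.eq.1 (QuotientAddGroup.out_eq' _)
    refine ⟨(t, g), ?_⟩
    show φ t + _ = g
    rw [ht]
    abel
  · intro t lam z
    show φ (t + lam) + z.out = φ t + z.out + φ lam
    rw [map_add]
    abel

variable {ι ν κ : Type} [Fintype ι] [LinearOrder ι] [Fintype ν] [LinearOrder ν] [Fintype κ]
  [DecidableEq κ] (B : κ → Pt ν) (c : κ → ℂ) (em : ι ↪ ν) (T : Finset κ)

omit [LinearOrder ι] [Fintype κ] [DecidableEq κ] in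
/-- A free sublattice of the right rank. -/
lemma exists_lat : ∃ k : ℕ, k + Fintype.card ι = Fintype.card ν + 1 ∧
    ∃ φ : (Fin (rk (bz B em) T + k) → ℤ) →+ Pt ν, Function.Injective φ ∧
      ∀ t, φ t ∈ Lat0 B em T := by
  classical
  let P : Option ν → Prop := fun o => o ∈ Set.range fun i => some (em i)
  have hc : Fintype.card {o // P o} = Fintype.card ι :=
    Set.card_range_of_injective ((Option.some_injective ν).comp em.injective)
  refine ⟨Fintype.card {o // ¬ P o}, ?_, ?_⟩
  · have := Fintype.card_subtype_le P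
    rw [Fintype.card_subtype_compl, ← hc]
    rw [Fintype.card_option] at this ⊢
    omega
  obtain ⟨f, hf, -, hli⟩ := Submodule.exists_fun_fin_finrank_span_eq ℚ
    (bz B em '' (T : Set κ))
  choose β hβ hβ' using hf
  let v : Fin (rk (bz B em) T) ⊕ {o // ¬ P o} → Pt ν :=
    Sum.elim (fun i => B (β i)) (fun o => Pi.single o.1 1)
  let E : Fin (rk (bz B em) T) ⊕ {o // ¬ P o} ≃ Fin (rk (bz B em) T + Fintype.card {o // ¬ P o}) :=
    Fintype.equivFinOfCardEq (by simp)
  have hv : LinearIndependent ℤ v := by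
    rw [Fintype.linearIndependent_iff]
    intro g hg
    rw [Fintype.sum_sum_type] at hg
    have h1 : ∀ i, g (Sum.inl i) = 0 := by
      have := Fintype.linearIndependent_iff.1 hli (fun i => (g (Sum.inl i) : ℚ)) (by
        funext a
        have h := congrFun hg (some (em a))
        have h0 : ∀ o : {o // ¬ P o}, (Pi.single o.1 1 : Pt ν) (some (em a)) = 0 := fun o =>
          Pi.single_eq_of_ne (fun e => o.2 ⟨a, e⟩) _
        simp only [Pi.add_apply, Finset.sum_apply, Pi.smul_apply, v, Sum.elim_inl, Sum.elim_inr,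
          h0, smul_eq_mul, mul_zero, sum_const_zero, add_zero, Pi.zero_apply] at h
        simp only [Finset.sum_apply, Pi.smul_apply, smul_eq_mul, Pi.zero_apply, ← hβ', bz, bx]
        exact_mod_cast h)
      intro i
      exact_mod_cast this i
    rintro (i | o)
    · exact h1 i
    · have h := congrFun hg o.1
      simp only [h1, zero_smul, sum_const_zero, zero_add, Finset.sum_apply, Pi.smul_apply, v,
        Sum.elim_inr, smul_eq_mul, Pi.zero_apply] at h
      rw [sum_eq_single o (fun o' _ h' => by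
        rw [Pi.single_eq_of_ne (fun e => h' (Subtype.ext e.symm)), mul_zero])
        (fun h => absurd (mem_univ _) h)] at h
      simpa using h
  refine ⟨(Fintype.linearCombination ℤ (v ∘ E.symm)).toAddMonoidHom,
    linearIndependent_iff_injective_fintypeLinearCombination.1 (hv.comp _ E.symm.injective),
    fun t => ?_⟩
  show Fintype.linearCombination ℤ (v ∘ E.symm) t ∈ _
  rw [Fintype.linearCombination_apply]
  refine AddSubgroup.sum_mem _ fun a _ => AddSubgroup.zsmul_mem _ (AddSubgroup.subset_closure ?_) _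
  show v (E.symm a) ∈ _
  rcases E.symm a with i | o
  · exact Or.inl ⟨β i, hβ i, rfl⟩
  · exact Or.inr fun i => Pi.single_eq_of_ne (fun e => o.2 ⟨i, e⟩) _

omit [Fintype ι] [LinearOrder ι] [Fintype ν] [LinearOrder ν] in
lemma ac_Fr (i : ι) : NullAux.ac ν (Fr B c T (some (em i))) = Fz B c T em i :=
  op_ext fun u => by
    rw [Fz, FT_single, Fr, map_sum, LinearMap.sum_apply]
    exact sum_congr rfl fun b _ => by rw [map_smul, LinearMap.smul_apply, NullAux.ac_U]

omit [Fintype ι] [LinearOrder ι] [Fintype ν] [LinearOrder ν] in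
lemma prj_Fz {Y : Set (Pt ν)} (hY : ∀ u, ∀ b ∈ T, u + B b ∈ Y ↔ u ∈ Y) (i : ι)
    (f : Pt ν →₀ ℂ) : Fz B c T em i (prj Y f) = prj Y (Fz B c T em i f) := by
  refine LinearMap.congr_fun (op_ext (L := Fz B c T em i ∘ₗ prj Y)
    (L' := prj Y ∘ₗ Fz B c T em i) fun u => ?_) f
  rw [LinearMap.comp_apply, LinearMap.comp_apply]
  by_cases hu : u ∈ Y
  · rw [prj_of_mem (single_mem_Su hu 1)]
    exact (prj_of_mem (FT_mem _ fun b hb => (hY u b hb).2 hu)).symm
  · rw [prj_of_disj (single_mem_Su (Y := Yᶜ) hu 1) fun _ h => h, map_zero]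
    exact (prj_of_disj (FT_mem (Y := Yᶜ) _ fun b hb h => hu ((hY u b hb).1 h)) fun _ h => h).symm

end TorAux

open TorAux in
theorem tor (hd : DepStmt) (hn : NNStmt) : TorStmt := by
  intro ι ν κ _ _ _ _ _ _ B c em A T hF hH hS Y hY m hm
  obtain ⟨k, hk, φ, hφ, hL⟩ := exists_lat B em T
  obtain ⟨Z, E, hE⟩ := exists_equiv φ hφ
  have key := hn ι (RR (Option ν)) (fun i => Fr B c T (some (em i))) A k _ (Pt ν →₀ ℂ) Z
    (NullAux.ac ν) (fun t => U (φ t)) (Finsupp.basisSingleOne.reindex E.symm)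
    (fun lam t z => by
      simp only [Module.Basis.reindex_apply, Equiv.symm_symm, Finsupp.coe_basisSingleOne]
      rw [NullAux.ac_U, hE])
    (fun lam => hd ι ν κ B c em A T hF hH hS k hk (fun a => φ (lam a)) fun a => hL _) m (by omega)
  simp only [ac_Fr] at key
  intro e d1 i1 i2
  obtain ⟨e', h1, h2⟩ := key e (fun J hJ => by
    by_cases h : J ⊆ A
    · exact d1 J fun h' => hJ ⟨h, h'⟩
    · exact Su_empty (Su_mono (fun _ hu => absurd hu.1 h) (i1 J))) (in_emp.1 i2)
  refine ⟨fun J => prj Y (e' J), fun J hJ => ?_, fun J => ?_, in_emp.2 ?_⟩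
  · show prj Y (e' J) = 0
    rw [h1 J fun h => hJ h.2, map_zero]
  · show prj Y (e' J) ∈ _
    by_cases h : J ⊆ A
    · exact Su_mono (fun _ hu => ⟨h, hu.2⟩)
        (prj_mem Y (mem_Su.2 fun _ hu => absurd (Set.mem_univ _) hu))
    · rw [h1 J fun h' => h h'.1, map_zero]
      exact Submodule.zero_mem _
  · funext J
    have a1 : prj Y (e J) = e J := prj_of_mem (Su_mono (fun _ hu => hu.2) (i1 J))
    rw [Pi.sub_apply, ← a1, h2]
    simp only [kd, kdV, map_sum, map_smul, prj_Fz B c em T hY, sub_self, Pi.zero_apply]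

end Pool.Agent.MP_5d9b3c_ag.H48R
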